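import Mathlib
import Pool.Agent.Helper28.NT.Defs2

/-!
# NT: coordinates for the generic cubic of the net

A form in the parameter `e` which vanishes at the generic point of the discriminant curve vanishes at all its points
(`StmtG`), so the coordinates found for one smooth member are good for the generic member.
-/

set_option linter.unusedSectionVars false

namespace Pool.Agent.NT28

open Pool.Agent.Helper15.KP (PS PT Dsc Dbin)
open Pool.Agent.Helper83.PC (act act_map act_smul pull dcub mcub)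
open Pool.Agent.Helper83.KPA

universe u

lemma coeff_scale {k : Type u} [Field k] (G : MvPolynomial (Fin 3) k) (m : Fin 3 →₀ ℕ) :
    MvPolynomial.coeff m (MvPolynomial.bind₁ (fun i => MvPolynomial.C (2 : k) * MvPolynomial.X i) G) =
      2 ^ (m 0 + m 1 + m 2) * MvPolynomial.coeff m G := by
  classical
  induction G using MvPolynomial.induction_on' with
  | monomial n a =>
    have e : MvPolynomial.bind₁ (fun i => MvPolynomial.C (2 : k) * MvPolynomial.X i) (MvPolynomial.monomial n a) =
        MvPolynomial.monomial n ((2 : k) ^ (n 0 + n 1 + n 2) * a) := by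
      have e1 : MvPolynomial.bind₁ (fun i => MvPolynomial.C (2 : k) * MvPolynomial.X i) (MvPolynomial.monomial n a) =
          MvPolynomial.C a * n.prod fun i m => (MvPolynomial.C (2 : k) * MvPolynomial.X i) ^ m := by
        rw [MvPolynomial.bind₁_monomial]
        rfl
      rw [e1, Finsupp.prod_fintype _ _ (by simp), Fin.prod_univ_three]
      simp only [mul_pow]
      rw [MvPolynomial.monomial_eq, Finsupp.prod_fintype _ _ (by simp), Fin.prod_univ_three]
      simp only [map_mul, map_pow, pow_add]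
      ring
    rw [e, MvPolynomial.coeff_monomial, MvPolynomial.coeff_monomial]
    split_ifs with hm
    · rw [hm]
    · rw [mul_zero]
  | add p q hp hq =>
    rw [map_add, MvPolynomial.coeff_add, MvPolynomial.coeff_add, hp, hq]
    ring

/-- Homogeneous polynomials by scaling. -/
lemma hom_of_scale {k : Type u} [Field k] [CharZero k] {G : MvPolynomial (Fin 3) k} {d : ℕ}
    (h : MvPolynomial.bind₁ (fun i => MvPolynomial.C (2 : k) * MvPolynomial.X i) G =
      MvPolynomial.C (2 : k) ^ d * G) : G.IsHomogeneous d := by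
  classical
  intro m hm
  have h2 := coeff_scale G m
  rw [h, ← map_pow, MvPolynomial.coeff_C_mul] at h2
  have h3 := mul_right_cancel₀ hm h2
  have h4 : d = m 0 + m 1 + m 2 := by
    have h5 : ((2 ^ d : ℕ) : k) = ((2 ^ (m 0 + m 1 + m 2) : ℕ) : k) := by
      push_cast
      exact h3
    exact Nat.pow_right_injective le_rfl (Nat.cast_injective h5)
  rw [h4, Finsupp.weight_apply, Finsupp.sum_fintype _ _ (by simp)]
  simp [Fin.sum_univ_three]

section ring

variable {R : Type*} [CommRing R]

lemma act_sum (c : Fin 3 → Fin 10 → R) (e : Fin 3 → R) (N : Matrix (Fin 3) (Fin 3) R) (j : Fin 10) :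
    act (fun j => ∑ i, e i * c i j) N j = ∑ i, e i * act (c i) N j := by
  simp only [Fin.sum_univ_three]
  fin_cases j <;> simp [act, pull, Pool.Agent.Helper83.PC.cub, dcub, mcub] <;> ring

lemma Dbin_smul (t : R) (c : Fin 10 → R) : Dbin (fun i => t * c i) = t ^ 4 * Dbin c := by
  unfold Dbin
  ring

lemma Dsc_smul (t : R) (c : Fin 10 → R) : Dsc (fun i => t * c i) = t ^ 12 * Dsc c := by
  unfold Dsc
  rw [PS_smul, PT_smul]
  ring

lemma Dbin_map {S : Type*} [CommRing S] (f : R →+* S) (c : Fin 10 → R) : Dbin (fun i => f (c i)) = f (Dbin c) := by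
  unfold Dbin
  simp only [map_add, map_sub, map_mul, map_pow, map_ofNat]

end ring

section alg

variable {k A B : Type*} [CommRing k] [CommRing A] [CommRing B] [Algebra k A] [Algebra k B] (f : A →ₐ[k] B)
  (c : Fin 10 → A)

lemma PS_mapA : PS (fun i => f (c i)) = f (PS c) := by
  unfold PS
  simp only [map_add, map_sub, map_mul, map_pow, map_neg, map_ofNat]

lemma PT_mapA : PT (fun i => f (c i)) = f (PT c) := by
  unfold PT
  simp only [map_add, map_sub, map_mul, map_pow, map_neg, map_ofNat]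

lemma Dbin_mapA : Dbin (fun i => f (c i)) = f (Dbin c) := by
  unfold Dbin
  simp only [map_add, map_sub, map_mul, map_pow, map_ofNat]

end alg

/-- The coefficients of the cubic as linear forms in the parameter. -/
noncomputable def lc {k : Type u} [Field k] (b : Fin 3 → Fin 10 → k) : Fin 10 → MvPolynomial (Fin 3) k :=
  fun j => ∑ i, MvPolynomial.X i * MvPolynomial.C (b i j)

lemma lc_scale {k : Type u} [Field k] (b : Fin 3 → Fin 10 → k) (j : Fin 10) :
    MvPolynomial.bind₁ (fun i => MvPolynomial.C (2 : k) * MvPolynomial.X i) (lc b j) =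
      MvPolynomial.C (2 : k) * lc b j := by
  unfold lc
  rw [map_sum, Finset.mul_sum]
  refine Finset.sum_congr rfl fun i _ => ?_
  rw [map_mul, MvPolynomial.bind₁_X_right, MvPolynomial.algHom_C]
  rw [mul_assoc]
  rfl

theorem c_of (hG : StmtG.{u}) : StmtC.{u} := by
  intro k K _ _ _ _ _ Q hQ x y hxy hdl f hf hsm hj
  classical
  obtain ⟨e₀, he₀, hd₀, hs⟩ := hsm
  obtain ⟨d, hd⟩ : ∃ d : Fin 10 → k, d = ce f e₀ := ⟨_, rfl⟩
  have hfe : fe f e₀ = cubP d := by
    unfold fe cubP
    rw [hd]
    have h1 : ∀ i, f i = Pool.Agent.Helper83.PC.cub (fun j => MvPolynomial.C (cf (f i) j)) (MvPolynomial.X 0) (MvPolynomial.X 1)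
        (MvPolynomial.X 2) := by
      intro i
      have h2 := cf_spec (hf i) (R := MvPolynomial (Fin 3) k) MvPolynomial.X
      rw [MvPolynomial.aeval_X_left_apply] at h2
      exact h2
    rw [Fin.sum_univ_three, h1 0, h1 1, h1 2]
    unfold ce
    simp only [Fin.sum_univ_three, map_add, map_mul, Algebra.algebraMap_self, RingHom.id_apply]
    unfold Pool.Agent.Helper83.PC.cub
    ring
  have hd' : ∀ p : Fin 3 → k, (∀ q, dcub d p q = 0) → p = 0 := by
    intro p hp
    apply hs
    intro i
    rw [hfe, eval_pderiv]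
    exact hp _
  obtain ⟨N, hN, hN0, hNb⟩ := exists_trans d hd'
  have hDd : Dsc d ≠ 0 := by
    intro h
    obtain ⟨p, hp, hp2⟩ := exists_sing h
    exact hp (hd' p hp2)
  -- the coefficients after the change of coordinates
  obtain ⟨b, hb⟩ : ∃ b : Fin 3 → Fin 10 → k, b = fun i => act (cf (f i)) N := ⟨_, rfl⟩
  have key : ∀ (L : Type u) [Field L] [Algebra k L] (e : Fin 3 → L) (j : Fin 10),
      act (ce f e) (N.map (algebraMap k L)) j = MvPolynomial.aeval e (lc b j) := by
    intro L _ _ e j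
    have h1 : act (ce f e) (N.map (algebraMap k L)) j =
        act (fun j => ∑ i, e i * (fun i j => algebraMap k L (cf (f i) j)) i j) (N.map (algebraMap k L)) j := rfl
    rw [h1, act_sum]
    unfold lc
    rw [map_sum]
    refine Finset.sum_congr rfl fun i _ => ?_
    rw [map_mul, MvPolynomial.aeval_X, MvPolynomial.aeval_C, hb]
    congr 1
    exact congrFun (act_map (algebraMap k L) (cf (f i)) N) j
  have keyk : ∀ (e : Fin 3 → k), act (ce f e) N = fun j => MvPolynomial.eval e (lc b j) := by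
    intro e
    funext j
    have h1 := key k e j
    have h2 : N.map (algebraMap k k) = N := by
      ext i j
      rfl
    rw [h2] at h1
    rw [h1]
    rfl
  have hvan : ∀ (m : ℕ) (G : MvPolynomial (Fin 3) k), G.IsHomogeneous m → MvPolynomial.aeval ![x, y, 1] G = 0 →
      ∀ e : Fin 3 → k, e ≠ 0 → dl Q e = 0 → MvPolynomial.eval e G = 0 := fun m G h1 h2 e h3 h4 =>
    hG k K Q hQ x y hxy hdl m G h1 h2 e h3 h4
  have hsc : (fun j => MvPolynomial.bind₁ (fun i => MvPolynomial.C (2 : k) * MvPolynomial.X i) (lc b j)) =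
      fun j => MvPolynomial.C (2 : k) * lc b j := funext (lc_scale b)
  have h0h : (lc b 0).IsHomogeneous 1 := by
    apply hom_of_scale
    rw [lc_scale, pow_one]
  have hbh : (Dbin (lc b)).IsHomogeneous 4 := by
    apply hom_of_scale
    have h1 := Dbin_mapA (MvPolynomial.bind₁ (fun i => MvPolynomial.C (2 : k) * MvPolynomial.X i) :
      MvPolynomial (Fin 3) k →ₐ[k] MvPolynomial (Fin 3) k) (lc b)
    have h2 := Dbin_smul (MvPolynomial.C (2 : k)) (lc b)
    rw [← h2, ← hsc]
    exact h1.symm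
  have hSh : (PS (lc b)).IsHomogeneous 4 := by
    apply hom_of_scale
    have h1 := PS_mapA (MvPolynomial.bind₁ (fun i => MvPolynomial.C (2 : k) * MvPolynomial.X i) :
      MvPolynomial (Fin 3) k →ₐ[k] MvPolynomial (Fin 3) k) (lc b)
    have h2 := PS_smul (MvPolynomial.C (2 : k)) (lc b)
    rw [← h2, ← hsc]
    exact h1.symm
  have hTh : (PT (lc b)).IsHomogeneous 6 := by
    apply hom_of_scale
    have h1 := PT_mapA (MvPolynomial.bind₁ (fun i => MvPolynomial.C (2 : k) * MvPolynomial.X i) :
      MvPolynomial (Fin 3) k →ₐ[k] MvPolynomial (Fin 3) k) (lc b)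
    have h2 := PT_smul (MvPolynomial.C (2 : k)) (lc b)
    rw [← h2, ← hsc]
    exact h1.symm
  have hDh : (Dsc (lc b)).IsHomogeneous 12 := (hSh.pow 3).add (hTh.pow 2)
  have hNk : N.map (algebraMap k k) = N := by
    ext i j
    rfl
  have hcov : ∀ e : Fin 3 → k, PS (act (ce f e) N) = N.det ^ 4 * PS (ce f e) := by
    intro e
    have h1 := PS_act (k := k) (ce f e) N
    rw [hNk] at h1
    exact h1
  have hcovT : ∀ e : Fin 3 → k, PT (act (ce f e) N) = N.det ^ 6 * PT (ce f e) := by
    intro e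
    have h1 := PT_act (k := k) (ce f e) N
    rw [hNk] at h1
    exact h1
  refine ⟨N, hN, fun c hc => ?_⟩
  have hcl : c = fun j => MvPolynomial.aeval ![x, y, 1] (lc b j) := by
    rw [hc]
    funext j
    exact key K _ j
  have hPS : PS c = MvPolynomial.aeval ![x, y, 1] (PS (lc b)) := by
    rw [hcl]
    exact PS_mapA (MvPolynomial.aeval ![x, y, 1] : MvPolynomial (Fin 3) k →ₐ[k] K) _
  have hPT : PT c = MvPolynomial.aeval ![x, y, 1] (PT (lc b)) := by
    rw [hcl]
    exact PT_mapA (MvPolynomial.aeval ![x, y, 1] : MvPolynomial (Fin 3) k →ₐ[k] K) _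
  have hPSe : ∀ e : Fin 3 → k, MvPolynomial.eval e (PS (lc b)) = N.det ^ 4 * PS (ce f e) := by
    intro e
    rw [← hcov, keyk]
    exact (PS_map (MvPolynomial.eval e) (lc b)).symm
  have hPTe : ∀ e : Fin 3 → k, MvPolynomial.eval e (PT (lc b)) = N.det ^ 6 * PT (ce f e) := by
    intro e
    rw [← hcovT, keyk]
    exact (PT_map (MvPolynomial.eval e) (lc b)).symm
  refine ⟨?_, ?_, ?_, ?_⟩
  · intro h
    rw [hcl] at h
    have h1 := hvan 1 _ h0h h e₀ he₀ hd₀
    apply hN0
    rw [hd, keyk]
    exact h1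
  · intro h
    have h2 : MvPolynomial.aeval ![x, y, 1] (Dbin (lc b)) = 0 := by
      rw [← h, hcl]
      exact (Dbin_mapA (MvPolynomial.aeval ![x, y, 1] : MvPolynomial (Fin 3) k →ₐ[k] K) _).symm
    have h1 := hvan 4 _ hbh h2 e₀ he₀ hd₀
    apply hNb
    rw [hd, keyk, ← h1]
    exact Dbin_map (MvPolynomial.eval e₀) (lc b)
  · intro h
    have h2 : MvPolynomial.aeval ![x, y, 1] (Dsc (lc b)) = 0 := by
      rw [← h]
      unfold Dsc
      rw [hPS, hPT, map_add, map_pow, map_pow]
    have h1 := hvan 12 _ hDh h2 e₀ he₀ hd₀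
    unfold Dsc at h1
    rw [map_add, map_pow, map_pow, hPSe, hPTe] at h1
    have h3 : N.det ^ 12 * Dsc d = 0 := by
      rw [hd]
      unfold Dsc
      linear_combination h1
    rcases mul_eq_zero.mp h3 with h4 | h4
    · exact hN (pow_eq_zero_iff (n := 12) (by norm_num) |>.mp h4)
    · exact hDd h4
  · intro a' b' h
    obtain ⟨e₁, e₂, he₁, he₂, hd₁, hd₂, hne⟩ := hj
    have hGh : (MvPolynomial.C a' * PS (lc b) ^ 3 - MvPolynomial.C b' * PT (lc b) ^ 2).IsHomogeneous 12 := by
      have h1 := (MvPolynomial.isHomogeneous_C (Fin 3) a').mul (hSh.pow 3)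
      have h2 := (MvPolynomial.isHomogeneous_C (Fin 3) b').mul (hTh.pow 2)
      exact h1.sub h2
    have h2 : MvPolynomial.aeval ![x, y, 1] (MvPolynomial.C a' * PS (lc b) ^ 3 - MvPolynomial.C b' * PT (lc b) ^ 2) =
        0 := by
      rw [map_sub, map_mul, map_mul, map_pow, map_pow, ← hPS, ← hPT, MvPolynomial.aeval_C, MvPolynomial.aeval_C,
        ← Algebra.smul_def, ← Algebra.smul_def, h, sub_self]
    have h3 := hvan 12 _ hGh h2 e₁ he₁ hd₁
    have h4 := hvan 12 _ hGh h2 e₂ he₂ hd₂
    rw [map_sub, map_mul, map_mul, map_pow, map_pow, hPSe, hPTe, MvPolynomial.eval_C, MvPolynomial.eval_C] at h3 h4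
    have hN12 : N.det ^ 12 ≠ 0 := pow_ne_zero _ hN
    have h5 : a' * PS (ce f e₁) ^ 3 = b' * PT (ce f e₁) ^ 2 := by
      apply mul_left_cancel₀ hN12
      linear_combination h3
    have h6 : a' * PS (ce f e₂) ^ 3 = b' * PT (ce f e₂) ^ 2 := by
      apply mul_left_cancel₀ hN12
      linear_combination h4
    have h7 : a' * (PS (ce f e₁) ^ 3 * PT (ce f e₂) ^ 2 - PS (ce f e₂) ^ 3 * PT (ce f e₁) ^ 2) = 0 := by
      linear_combination PT (ce f e₂) ^ 2 * h5 - PT (ce f e₁) ^ 2 * h6
    have h8 : a' = 0 := (mul_eq_zero.mp h7).resolve_right (sub_ne_zero.mpr hne)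
    refine ⟨h8, ?_⟩
    by_contra hb'
    rw [h8, zero_mul] at h5 h6
    have h9 : PT (ce f e₁) ^ 2 = 0 := (mul_eq_zero.mp h5.symm).resolve_left hb'
    have h10 : PT (ce f e₂) ^ 2 = 0 := (mul_eq_zero.mp h6.symm).resolve_left hb'
    apply hne
    rw [h9, h10, mul_zero, mul_zero]

end Pool.Agent.NT28
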