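import Mathlib
import Pool.Agent.Helper9.NS
import Pool.Agent.Helper15.KP.StepA

/-!
# KN: families of plane cubics over an arbitrary curve, definitions

`K` is the function field of a curve, `F = K (τ, s, t)` with `τ ^ 2 = h` and a cubic equation for `s`, `t` with
coefficients in `K`.
-/

set_option linter.unusedSectionVars false

namespace Pool.Agent.Helper83.KN

open VC VF Function Polynomial Pool.Agent.Helper21.TO Pool.Agent.Helper15.GT Pool.Agent.Helper15.KP
open Pool.Agent.Helper51.VN (Harm)

universe u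

/-- The function field `F = K (τ, s, t)` of a surface fibred over a double cover `τ ^ 2 = h` of the curve with the
function field `K` by plane cubics with coefficients in `K`. -/
structure CK (K F : Type u) [Field K] [Field F] [Algebra K F] where
  τ : F
  s : F
  t : F
  ι : F ≃ₐ[K] F
  h : K
  c : Fin 10 → K
  h0 : h ≠ 0
  hτ : τ ^ 2 = algebraMap K F h
  tr : Transcendental K s
  gen : IntermediateField.adjoin K {τ, s, t} = ⊤
  ιτ : ι τ = - τ
  ιs : ι s = s
  ιt : ι t = t
  eqn : cub (fun i => algebraMap K F (c i)) s t = 0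
  c0 : c 0 ≠ 0
  bin : Dbin c ≠ 0
  dsc : Dsc c ≠ 0

/-- The involution of the data. -/
lemma CK.ι_ι {K F : Type u} [Field K] [Field F] [Algebra K F] (D : CK K F) (z : F) : D.ι (D.ι z) = z := by
  have h1 : ∀ z ∈ IntermediateField.adjoin K {D.τ, D.s, D.t}, D.ι (D.ι z) = z := by
    intro z hz
    induction hz using IntermediateField.adjoin_induction with
    | mem x hx =>
      rcases hx with rfl | rfl | rfl
      · rw [D.ιτ, map_neg, D.ιτ, neg_neg]
      · rw [D.ιs, D.ιs]
      · rw [D.ιt, D.ιt]
    | algebraMap x => rw [AlgEquiv.commutes, AlgEquiv.commutes]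
    | add x y _ _ hx hy => rw [map_add, map_add, hx, hy]
    | inv x _ hx => rw [map_inv₀, map_inv₀, hx]
    | mul x y _ _ hx hy => rw [map_mul, map_mul, hx, hy]
  exact h1 z (by rw [D.gen]; exact IntermediateField.mem_top)

lemma CK.τ_ne {K F : Type u} [Field K] [Field F] [Algebra K F] (D : CK K F) : D.τ ≠ 0 := by
  intro h
  have h1 := D.hτ
  rw [h, zero_pow two_ne_zero] at h1
  exact D.h0 ((map_eq_zero_iff _ (algebraMap K F).injective).mp h1.symm)

/-- Step A over a curve: `Ω` is a Galois extension of `F` with the group `G`, and of the function field `K (x, y)` of an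
elliptic surface over the curve with the function field `K`, with the group `Γ`; for every harmonic function `u` on the
places of `F`, pull back to `Ω`, take the trace to `K (x, y)`, pull back to `Ω` and take the trace to `F`: up to a
harmonic function of the restriction to the curve with the function field `M` the result is
`card G * (np * u (w) - nm * u (ι w))`. -/
structure A1K (k : Type u) {K F M : Type u} [Field k] [IsAlgClosed k] [CharZero k] [Field K] [Algebra k K] [Field F]
    [Algebra k F] [Field M] [Algebra k M] (hM : IsFunctionField k M) (κ : M →ₐ[k] F)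
    (j : K →ₐ[k] F) (ι : F ≃ₐ[k] F) (A B : K) (Ω : Type u) [Field Ω] [Algebra k Ω] [Algebra K Ω]
    (G Γ : Type u) [Group G] [Fintype G] [Group Γ] [Fintype Γ] where
  e : F →ₐ[k] Ω
  hj : ∀ z, e (j z) = algebraMap K Ω z
  ρ : G →* (Ω ≃ₐ[k] Ω)
  fixF : ∀ g z, ρ g (e z) = e z
  x : Ω
  y : Ω
  tr : Transcendental K x
  eqn : y ^ 2 = x ^ 3 + algebraMap K Ω A * x + algebraMap K Ω B
  ρ' : Γ →* (Ω ≃ₐ[k] Ω)
  fixE : ∀ z : Ω, (∀ g, ρ' g z = z) ↔ z ∈ IntermediateField.adjoin K {x, y}
  np : ℕ
  nm : ℕ
  hnp : 0 < np + nm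
  main : ∀ u : RPl k F → k, HF k F u → ∃ μ : Place k M → k, Harm hM μ ∧ ∀ w : RPl k Ω,
    ∑ h : G, ∑ g : Γ, u (((w.comap ((ρ h : Ω ≃ₐ[k] Ω) : Ω →ₐ[k] Ω)).comap
      ((ρ' g : Ω ≃ₐ[k] Ω) : Ω →ₐ[k] Ω)).comap e) =
      (Fintype.card G : k) * ((np : k) * u (w.comap e) -
        (nm : k) * u ((w.comap e).comap ((ι : F ≃ₐ[k] F) : F →ₐ[k] F))) + μ ((w.comap e).pl hM κ)

/-- The odd combinations on which the harmonic functions of the curve with the function field `M` vanish. -/
def OddJ {k F M : Type u} [Field k] [IsAlgClosed k] [CharZero k] [Field F] [Algebra k F] [Field M] [Algebra k M]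
    (hM : IsFunctionField k M) (κ : M →ₐ[k] F) (ι : F ≃ₐ[k] F) : Set (RPl k F →₀ ℤ) :=
  {c | c ∈ Odd ι ∧ ∀ μ : Place k M → k, Harm hM μ →
    Finsupp.linearCombination ℤ (fun w : RPl k F => μ (w.pl hM κ)) c = 0}

/-- Voisin's property for `n > p`, for the combinations of places of degree zero whose restriction to the base, a curve
with the function field `K`, is zero. -/
def VPB {k K E : Type u} [Field k] [IsAlgClosed k] [CharZero k] [Field K] [Algebra k K] [Field E] [Algebra k E]
    (hK : IsFunctionField k K) (κ : K →ₐ[k] E) (p : ℕ) : Prop :=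
  ∀ (M : ℕ) (ξ : Fin M → E) (hξ : ξ ≠ 0) (n : ℕ), p < n →
    VoisinOn (proj k (van k ξ)) {b | ∃ a ∈ {a : RPl k E →₀ ℤ | a.sum (fun _ c => c) = 0 ∧
      a.mapDomain (RPl.pl hK κ) = 0}, b = a.mapDomain (evP ξ hξ)} n

/-- Voisin's property for `n > p` for the elliptic surface `y ^ 2 = x ^ 3 + A x + B` over the curve with the function
field `K`. -/
def EllVPK {k K : Type u} [Field k] [IsAlgClosed k] [CharZero k] [Field K] [Algebra k K]
    (hK : IsFunctionField k K) (A B : K) (p : ℕ) : Prop :=
  ∀ (E : Type u) [Field E] [Algebra k E] [Algebra K E] [IsScalarTower k K E] (x y : E), Transcendental K x →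
    y ^ 2 = x ^ 3 + algebraMap K E A * x + algebraMap K E B → IntermediateField.adjoin K {x, y} = ⊤ →
      VPB hK (IsScalarTower.toAlgHom k K E) p

end Pool.Agent.Helper83.KN
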