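import Mathlib
import Pool.Agent.Helper9.NS
import Pool.Agent.Helper67.KP.Mn
import Pool.Agent.Helper83.KN.Cst
import Pool.Agent.Helper83.KN.Trc

/-!
# KN: the correspondence of step A

The proofs are those of Helper67/KP/Mn.lean, over an arbitrary curve.
-/

set_option linter.unusedSectionVars false

namespace Pool.Agent.Helper83.KN

open VC VF Function Polynomial Pool.Agent.Helper21.TO Pool.Agent.Helper15.GT Pool.Agent.Helper15.KP
open Pool.Agent.Helper67.KP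
open Pool.Agent.Helper51.VN (Harm)

universe u

variable {k K M L F Ω : Type u} [Field k] [Field K] [Field M] [Field L] [Field F] [Field Ω]
  [Algebra k K] [Algebra k M] [Algebra k L] [Algebra k F] [Algebra k Ω]
  [Algebra K M] [Algebra K L] [Algebra K F] [Algebra K Ω] [Algebra M L] [Algebra M Ω] [Algebra L Ω] [Algebra F Ω]
  [IsScalarTower k K M] [IsScalarTower k K L] [IsScalarTower k K F] [IsScalarTower k K Ω] [IsScalarTower k M L]
  [IsScalarTower k M Ω] [IsScalarTower k L Ω] [IsScalarTower k F Ω] [IsScalarTower K M L] [IsScalarTower K M Ω]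
  [IsScalarTower K L Ω] [IsScalarTower K F Ω] [IsScalarTower M L Ω]
  [CharZero k] [CharZero L] [CharZero Ω] [CharZero K] [CharZero M] [IsAlgClosed k]

/-- Sums of harmonic functions. -/
lemma harm_sum {hM : IsFunctionField k M} {ι : Type*} [Fintype ι] {μ : ι → Place k M → k} (h : ∀ i, Harm hM (μ i)) :
    Harm hM (fun P => ∑ i, μ i P) := by
  classical
  intro f hf
  simp only [Finset.mul_sum]
  rw [Finset.sum_comm]
  exact Finset.sum_eq_zero fun i _ => h i f hf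

/-- A reflection over `K` is a reflection over `k`. -/
lemma ref_res {R : Ω ≃ₐ[K] Ω} (h : Ref K L Ω R) : Ref k L Ω (R.restrictScalars k) := by
  obtain ⟨h1, h2, h3, r, h4, h5, h6⟩ := h
  refine ⟨?_, ?_, h3, r, h4, h5, h6⟩
  · ext z
    exact congrArg (fun f : Ω ≃ₐ[K] Ω => f z) h1
  · intro h0
    apply h2
    ext z
    exact congrArg (fun f : Ω ≃ₐ[k] Ω => f z) h0

namespace Ctx

variable (Z : Ctx K M L F Ω)

variable (k) in
/-- The embedding over `k`. -/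
abbrev ek (k : Type u) {F Ω : Type u} [Field k] [Field F] [Field Ω] [Algebra k F] [Algebra k Ω] [Algebra F Ω]
  [IsScalarTower k F Ω] : F →ₐ[k] Ω := IsScalarTower.toAlgHom k F Ω

theorem hrm_pos (hL : IsFunctionField k L) {u : RPl k F → k} (hu : HF k F u) (g : Ω ≃ₐ[K] Ω) (h1 : g Z.T = Z.T)
    (h2 : g Z.X0 = Z.X0) (h3 : g Z.Y0 = Z.Y0) :
    ∃ l : Place k L → k, Harm hL l ∧ ∀ w : RPl k Ω, u ((w.comap ((g.restrictScalars k : Ω ≃ₐ[k] Ω) : Ω →ₐ[k] Ω)).comap
      (ek k)) = u (w.comap (ek k)) + l (w.pl hL (IsScalarTower.toAlgHom k L Ω)) := by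
  rcases Z.cls_pos g h1 h2 h3 with h | ⟨ν, ρ, hν, hρ, h⟩
  · refine ⟨fun _ => 0, harm_zero, fun w => ?_⟩
    have h' : ((g.restrictScalars k : Ω ≃ₐ[k] Ω) : Ω →ₐ[k] Ω).comp (ek k (F := F)) = ek k := by
      ext z
      exact congrArg (fun f : F →ₐ[K] Ω => f z) h
    rw [RPl.comap_comap, h', add_zero]
  · have hu' : HF k Ω (fun w => u (w.comap (ek k))) := hf_comap hu (ek k)
    have hν' := ref_res (k := k) hν
    have hρ' := ref_res (k := k) hρ
    obtain ⟨l1, hl1, h4⟩ := hρ'.harm hL hu'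
    obtain ⟨l2, hl2, h5⟩ := hν'.harm hL hu'
    refine ⟨_, harm_sub hl1 hl2, fun w => ?_⟩
    have h6 := h4 (w.comap ((ν.restrictScalars k : Ω ≃ₐ[k] Ω) : Ω →ₐ[k] Ω))
    have h7 := h5 w
    rw [pl_ref hL hν'] at h6
    simp only [RPl.comap_comap] at h6 h7 ⊢
    have h' : ((g.restrictScalars k : Ω ≃ₐ[k] Ω) : Ω →ₐ[k] Ω).comp (ek k (F := F)) =
        ((ν.restrictScalars k : Ω ≃ₐ[k] Ω) : Ω →ₐ[k] Ω).comp
          (((ρ.restrictScalars k : Ω ≃ₐ[k] Ω) : Ω →ₐ[k] Ω).comp (ek k)) := by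
      ext z
      exact congrArg (fun f : F →ₐ[K] Ω => f z) h
    have h8 : ((ν.restrictScalars k : Ω ≃ₐ[k] Ω) : Ω →ₐ[k] Ω).comp
          (((ρ.restrictScalars k : Ω ≃ₐ[k] Ω) : Ω →ₐ[k] Ω).comp (ek k (F := F))) =
      (((ν.restrictScalars k : Ω ≃ₐ[k] Ω) : Ω →ₐ[k] Ω).comp
        ((ρ.restrictScalars k : Ω ≃ₐ[k] Ω) : Ω →ₐ[k] Ω)).comp (ek k) := rfl
    rw [h', ← h6, ← h7, h8]
    ring

theorem hrm_neg (hL : IsFunctionField k L) {u : RPl k F → k} (hu : HF k F u) (g : Ω ≃ₐ[K] Ω)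
    (h1 : g Z.T = - Z.T) (h2 : g Z.X0 = Z.X0) (h3 : g Z.Y0 = - Z.Y0) :
    ∃ l : Place k L → k, Harm hL l ∧ ∀ w : RPl k Ω, u ((w.comap ((g.restrictScalars k : Ω ≃ₐ[k] Ω) : Ω →ₐ[k] Ω)).comap
      (ek k)) = - u ((w.comap (ek k)).comap ((Z.D.ι.restrictScalars k : F ≃ₐ[k] F) : F →ₐ[k] F)) +
        l (w.pl hL (IsScalarTower.toAlgHom k L Ω)) := by
  obtain ⟨R, hR, h⟩ := Z.cls_neg g h1 h2 h3
  have hR' := ref_res (k := k) hR
  have hu' : HF k Ω (fun w => u ((w.comap (ek k)).comap ((Z.D.ι.restrictScalars k : F ≃ₐ[k] F) : F →ₐ[k] F))) :=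
    hf_comap (hf_comap hu ((Z.D.ι.restrictScalars k : F ≃ₐ[k] F) : F →ₐ[k] F)) (ek k)
  obtain ⟨l1, hl1, h4⟩ := hR'.harm hL hu'
  refine ⟨l1, hl1, fun w => ?_⟩
  have h6 := h4 w
  simp only [RPl.comap_comap] at h6 ⊢
  have h' : ((g.restrictScalars k : Ω ≃ₐ[k] Ω) : Ω →ₐ[k] Ω).comp (ek k (F := F)) =
      ((R.restrictScalars k : Ω ≃ₐ[k] Ω) : Ω →ₐ[k] Ω).comp
        ((ek k).comp ((Z.D.ι.restrictScalars k : F ≃ₐ[k] F) : F →ₐ[k] F)) := by
    ext z
    exact congrArg (fun f : F →ₐ[K] Ω => f z) h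
  rw [h', ← h6]
  ring_nf
  rfl

include Z in
/-- The elements of `L` in `F`. -/
lemma fix_L [FiniteDimensional F Ω] [IsGalois F Ω] [Algebra.IsAlgebraic M L] (z : L) :
    (∀ g : Ω ≃ₐ[F] Ω, g (algebraMap L Ω z) = algebraMap L Ω z) ↔ z ∈ Set.range (algebraMap M L) := by
  constructor
  · intro h
    obtain ⟨f, hf⟩ := (IsGalois.mem_range_algebraMap_iff_fixed (F := F) (algebraMap L Ω z)).mpr h
    obtain ⟨i1, i2⟩ := Z.galE'
    have h1 : ∀ g : Ω ≃ₐ[Z.E'] Ω, g (algebraMap L Ω z) = algebraMap L Ω z := by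
      intro g
      have hg : ∀ m ∈ Z.E', g m = m := fun m hm => g.commutes (⟨m, hm⟩ : Z.E')
      have hT : Z.T ∈ Z.E' := IntermediateField.subset_adjoin K _ (by simp)
      have hx : Z.X0 ∈ Z.E' := IntermediateField.subset_adjoin K _ (by simp)
      have hy : Z.Y0 ∈ Z.E' := IntermediateField.subset_adjoin K _ (by simp)
      rcases Z.cls_pos (g.restrictScalars K) (hg _ hT) (hg _ hx) (hg _ hy) with h2 | ⟨ν, ρ, hν, hρ, h2⟩
      · have h3 := congrArg (fun j => j f) h2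
        change g (algebraMap F Ω f) = algebraMap F Ω f at h3
        rw [← hf]; exact h3
      · have h3 := congrArg (fun j => j f) h2
        change g (algebraMap F Ω f) = ν (ρ (algebraMap F Ω f)) at h3
        rw [hf, hρ.fix, hν.fix] at h3
        exact h3
    obtain ⟨m, hm⟩ := (IsGalois.mem_range_algebraMap_iff_fixed (F := Z.E') (algebraMap L Ω z)).mpr h1
    have h4 : algebraMap L Ω z ∈ Z.E' := by
      rw [← hm]; exact m.2
    have h5 : Z.E' ≤ (IntermediateField.adjoin M {Z.X0, Z.Y0}).restrictScalars K := by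
      rw [IntermediateField.adjoin_le_iff]
      rintro _ (rfl | rfl | rfl)
      · have : Z.T = algebraMap M Ω Z.τ := by
          rw [IsScalarTower.algebraMap_apply M L Ω]; exact Z.hτ.symm
        rw [this]
        exact (IntermediateField.adjoin M {Z.X0, Z.Y0}).algebraMap_mem _
      · exact IntermediateField.subset_adjoin M _ (by simp)
      · exact IntermediateField.subset_adjoin M _ (by simp)
    have h6 : Transcendental M Z.X0 := by
      intro h7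
      exact Z.B.tr_x (by decide) (by decide) (by decide) (h7.extendScalars (algebraMap M L).injective)
    obtain ⟨c, hc⟩ : ∃ c : Fin 10 → M, ∀ j, algebraMap M L (c j) = Z.B.c j :=
      ⟨fun j => algebraMap K M (Z.D.c j), fun j => by
        rw [Z.hc, ← IsScalarTower.algebraMap_apply]⟩
    have h8 : ∀ j, algebraMap M Ω (c j) = Z.B.C j := fun j => by
      rw [IsScalarTower.algebraMap_apply M L Ω, hc]
    have h9 := mem_of_algebraic Z.X0 Z.Y0 h6 (27 * PS c) (54 * PT c) (by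
      rw [weier Z.B.hRC (by decide) (by decide) (by decide) Z.B.eqn, map_mul, map_mul, map_PS, map_PT, map_ofNat,
        map_ofNat]
      simp only [h8]) (algebraMap L Ω z) (h5 h4)
      ((Algebra.IsAlgebraic.isAlgebraic (R := M) z).algebraMap)
    obtain ⟨a, ha⟩ := h9
    refine ⟨a, (algebraMap L Ω).injective ?_⟩
    rw [← ha, IsScalarTower.algebraMap_apply M L Ω]
  · rintro ⟨a, rfl⟩ g
    rw [← IsScalarTower.algebraMap_apply, ← Z.hκ]
    exact g.commutes _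

/-- STEP A, the data. -/
theorem exists_A1 [FiniteDimensional F Ω] [IsGalois F Ω] [Algebra.IsAlgebraic M L] (hM : IsFunctionField k M)
    (hL : IsFunctionField k L) :
    ∃ (G Γ : Type u) (_ : Group G) (_ : Fintype G) (_ : Group Γ)
      (_ : Fintype Γ), Nonempty (A1K k hM (Z.κ.restrictScalars k) (IsScalarTower.toAlgHom k K F) (Z.D.ι.restrictScalars k)
        (27 * Z.D.h ^ 2 * PS Z.D.c) (54 * Z.D.h ^ 3 * PT Z.D.c) Ω G Γ) := by
  classical
  obtain ⟨i1, i2⟩ := Z.galE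
  have hx : Z.x ∈ Z.E := IntermediateField.subset_adjoin K _ (by simp)
  have hy : Z.y ∈ Z.E := IntermediateField.subset_adjoin K _ (by simp)
  let f1 : Fintype (Ω ≃ₐ[F] Ω) := Fintype.ofFinite _
  let f2 : Fintype (Ω ≃ₐ[Z.E] Ω) := Fintype.ofFinite _
  let ρ : (Ω ≃ₐ[F] Ω) →* (Ω ≃ₐ[k] Ω) := AlgEquiv.restrictScalarsHom k
  let ρK : (Ω ≃ₐ[Z.E] Ω) →* (Ω ≃ₐ[K] Ω) := AlgEquiv.restrictScalarsHom K
  let ρ' : (Ω ≃ₐ[Z.E] Ω) →* (Ω ≃ₐ[k] Ω) := (AlgEquiv.restrictScalarsHom k).comp ρK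
  have hρ' : ∀ g : Ω ≃ₐ[Z.E] Ω, ∀ m ∈ Z.E, ρK g m = m := fun g m hm => g.commutes (⟨m, hm⟩ : Z.E)
  have hsgn := fun g : Ω ≃ₐ[Z.E] Ω => Z.sgn (ρK g) (hρ' g _ hx) (hρ' g _ hy)
  have hst : ∀ (g : Ω ≃ₐ[F] Ω) (z : L), ρ g (IsScalarTower.toAlgHom k L Ω z) ∈
      Set.range (IsScalarTower.toAlgHom k L Ω) := by
    intro g z
    exact Z.stable (g.restrictScalars K) (Or.inl (g.commutes _)) z
  have hfix : ∀ z : L, (∀ g : Ω ≃ₐ[F] Ω, ρ g (IsScalarTower.toAlgHom k L Ω z) = IsScalarTower.toAlgHom k L Ω z) ↔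
      z ∈ Set.range (algebraMap M L) := fun z => Z.fix_L z
  have htr : Transcendental K Z.x := by
    intro h2
    apply Z.B.tr_x (i := 1) (k := 0) (m := 2) (by decide) (by decide) (by decide)
    have h3 : Z.X0 = algebraMap K Ω (Z.D.h⁻¹) * Z.x := by
      rw [map_inv₀]
      change Z.X0 = Z.H⁻¹ * (Z.H * Z.X0)
      rw [← mul_assoc, inv_mul_cancel₀ Z.H_ne, one_mul]
    have h4 : IsAlgebraic K Z.X0 := by
      rw [h3]
      exact (isAlgebraic_algebraMap _).mul h2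
    exact h4.extendScalars (algebraMap K L).injective
  have hcard : ∀ w : RPl k Ω, ∀ h : Ω ≃ₐ[F] Ω, (w.comap ((ρ h : Ω ≃ₐ[k] Ω) : Ω →ₐ[k] Ω)).comap (ek k (F := F)) =
      w.comap (ek k) := by
    intro w h
    rw [RPl.comap_comap]
    congr 1
    apply AlgHom.ext
    intro z
    exact h.commutes z
  refine ⟨Ω ≃ₐ[F] Ω, Ω ≃ₐ[Z.E] Ω, inferInstance, f1, inferInstance, f2, ⟨
    { e := ek k
      hj := fun z => (IsScalarTower.algebraMap_apply K F Ω z).symm
      ρ := ρ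
      fixF := fun g z => g.commutes z
      x := Z.x
      y := Z.y
      tr := htr
      eqn := ?_
      ρ' := ρ'
      fixE := fun z => ?_
      np := (Finset.univ.filter fun g : Ω ≃ₐ[Z.E] Ω => ρK g Z.T = Z.T).card
      nm := (Finset.univ.filter fun g : Ω ≃ₐ[Z.E] Ω => ¬ ρK g Z.T = Z.T).card
      hnp := ?_
      main := fun u hu => ?_ }⟩⟩
  · have h1 := weier Z.B.hRC (i := 1) (k' := 0) (m := 2) (by decide) (by decide) (by decide) Z.B.eqn
    have h4 : algebraMap K Ω (PS Z.D.c) = PS Z.B.C := by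
      rw [map_PS]
      exact congrArg PS (funext fun j => (Z.hC j).symm)
    have h5 : algebraMap K Ω (PT Z.D.c) = PT Z.B.C := by
      rw [map_PT]
      exact congrArg PT (funext fun j => (Z.hC j).symm)
    rw [map_mul, map_mul, map_mul, map_mul, map_pow, map_pow, map_ofNat, map_ofNat, h4, h5]
    change (Z.H * Z.T * Z.Y0) ^ 2 = (Z.H * Z.X0) ^ 3 + 27 * Z.H ^ 2 * PS Z.B.C * (Z.H * Z.X0) +
      54 * Z.H ^ 3 * PT Z.B.C
    change Z.Y0 ^ 2 = Z.X0 ^ 3 + 27 * PS Z.B.C * Z.X0 + 54 * PT Z.B.C at h1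
    have h6 := Z.T_sq
    linear_combination Z.H ^ 3 * h1 + Z.H ^ 2 * Z.Y0 ^ 2 * h6
  · rw [← SetLike.mem_coe]
    refine Iff.trans ?_ (Iff.trans (IsGalois.mem_range_algebraMap_iff_fixed (F := Z.E) z).symm ?_)
    · exact Iff.rfl
    · constructor
      · rintro ⟨m, rfl⟩
        exact m.2
      · intro h
        exact ⟨⟨z, h⟩, rfl⟩
  · rw [Finset.card_filter_add_card_filter_not]
    exact Fintype.card_pos
  · have key : ∀ g : Ω ≃ₐ[Z.E] Ω, ∃ l : Place k L → k, Harm hL l ∧ ∀ w : RPl k Ω,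
        u ((w.comap ((ρ' g : Ω ≃ₐ[k] Ω) : Ω →ₐ[k] Ω)).comap (ek k)) =
        (if ρK g Z.T = Z.T then u (w.comap (ek k)) else
          - u ((w.comap (ek k)).comap ((Z.D.ι.restrictScalars k : F ≃ₐ[k] F) : F →ₐ[k] F))) +
          l (w.pl hL (IsScalarTower.toAlgHom k L Ω)) := by
      intro g
      rcases hsgn g with ⟨h1, h2, h3⟩ | ⟨h1, h2, h3⟩
      · obtain ⟨l, hl, h4⟩ := Z.hrm_pos hL hu (ρK g) h1 h2 h3
        refine ⟨l, hl, fun w => ?_⟩
        rw [if_pos h1]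
        exact h4 w
      · obtain ⟨l, hl, h4⟩ := Z.hrm_neg hL hu (ρK g) h1 h2 h3
        refine ⟨l, hl, fun w => ?_⟩
        have h5 : ¬ ρK g Z.T = Z.T := by
          rw [h1]
          intro h6
          apply Z.T_ne
          have h7 : (2 : Ω) * Z.T = 0 := by linear_combination - h6
          exact (mul_eq_zero.mp h7).resolve_left two_ne_zero
        rw [if_neg h5]
        exact h4 w
    choose lg hlg hlw using key
    choose μ hμ hCg using fun g => trace_harm hM hL (IsScalarTower.toAlgHom k L Ω) ρ hst hfix (hlg g)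
    refine ⟨fun P => ∑ g, μ g P, harm_sum hμ, fun w => ?_⟩
    have h1 := hcard w
    have h2 : ∀ h : Ω ≃ₐ[F] Ω, ∑ g : Ω ≃ₐ[Z.E] Ω, u (((w.comap ((ρ h : Ω ≃ₐ[k] Ω) : Ω →ₐ[k] Ω)).comap
        ((ρ' g : Ω ≃ₐ[k] Ω) : Ω →ₐ[k] Ω)).comap (ek k)) =
        (((Finset.univ.filter fun g : Ω ≃ₐ[Z.E] Ω => ρK g Z.T = Z.T).card : k) * u (w.comap (ek k)) -
        ((Finset.univ.filter fun g : Ω ≃ₐ[Z.E] Ω => ¬ ρK g Z.T = Z.T).card : k) *
          u ((w.comap (ek k)).comap ((Z.D.ι.restrictScalars k : F ≃ₐ[k] F) : F →ₐ[k] F))) +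
        ∑ g : Ω ≃ₐ[Z.E] Ω, lg g ((w.comap ((ρ h : Ω ≃ₐ[k] Ω) : Ω →ₐ[k] Ω)).pl hL
          (IsScalarTower.toAlgHom k L Ω)) := by
      intro h
      simp only [hlw, h1]
      rw [Finset.sum_add_distrib, Finset.sum_ite, Finset.sum_const, Finset.sum_const]
      simp only [nsmul_eq_mul]
      ring
    rw [Finset.sum_congr rfl fun h _ => h2 h, Finset.sum_add_distrib, Finset.sum_const, Finset.card_univ,
      nsmul_eq_mul]
    congr 1
    rw [Finset.sum_comm]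
    refine Finset.sum_congr rfl fun g _ => ?_
    rw [hCg g w]
    congr 1
    ext z
    change algebraMap L Ω (algebraMap M L z) ∈ w.ring ↔ algebraMap F Ω (Z.κ z) ∈ w.ring
    rw [Z.hκ, ← IsScalarTower.algebraMap_apply]

end Ctx

end Pool.Agent.Helper83.KN
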