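import Mathlib
import Pool.Agent.Helper9.NS
import Pool.Agent.Helper83.KN.Defs
import Pool.Agent.Helper15.KP.StepA

/-!
# KN: step A over an arbitrary curve, the odd cycles
-/

set_option linter.unusedSectionVars false

namespace Pool.Agent.Helper83.KN

open VC VF Function Polynomial Pool.Agent.Helper21.TO Pool.Agent.Helper15.GT Pool.Agent.Helper15.KP

universe u

variable {k : Type u} [Field k] [IsAlgClosed k] [CharZero k]

theorem stepA_k {K F M' : Type u} [Field K] [Algebra k K] [Field F] [Algebra k F] (hK : IsFunctionField k K)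
    [Field M'] [Algebra k M'] {hM : IsFunctionField k M'} {κ : M' →ₐ[k] F} {j : K →ₐ[k] F} {ι : F ≃ₐ[k] F} (hι : ∀ z, ι (j z) = j z) {P Q : K} {Ω : Type u} [Field Ω]
    [Algebra k Ω] [Algebra K Ω] [IsScalarTower k K Ω] {G Γ : Type u} [Group G] [Fintype G] [Group Γ] [Fintype Γ]
    (A : A1K k hM κ j ι P Q Ω G Γ) {p : ℕ}
    (hE : EllVPK hK P Q p) (M : ℕ) (ξ : Fin M → F) (hξ : ξ ≠ 0) (n : ℕ)
    (hn : p < n) : VoisinOn (proj k (van k ξ)) {b | ∃ a ∈ OddJ hM κ ι, b = a.mapDomain (evP ξ hξ)} n := by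
  classical
  -- the function field of the elliptic surface
  let E : IntermediateField K Ω := IntermediateField.adjoin K {A.x, A.y}
  have hx : A.x ∈ E := IntermediateField.subset_adjoin _ _ (by simp)
  have hy : A.y ∈ E := IntermediateField.subset_adjoin _ _ (by simp)
  have hVP : VPB hK (IsScalarTower.toAlgHom k K E) p := by
    refine hE E ⟨A.x, hx⟩ ⟨A.y, hy⟩ ?_ ?_ ?_
    · intro h
      exact A.tr ((isAlgebraic_algebraMap_iff (algebraMap E Ω).injective).mpr h)
    · apply Subtype.ext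
      exact A.eqn
    · apply IntermediateField.map_injective (IntermediateField.val E)
      rw [IntermediateField.adjoin_map, Set.image_insert_eq, Set.image_singleton,
        ← AlgHom.fieldRange_eq_map, IntermediateField.fieldRange_val]
      rfl
  let v : E →ₐ[k] Ω := (IntermediateField.val E).restrictScalars k
  choose L hL using fun v : RPl k F => exists_lift A.e v
  have : Nonempty Γ := ⟨1⟩
  refine voisin_fam (fun g : Γ => (((A.ρ' g : Ω ≃ₐ[k] Ω) : Ω →ₐ[k] Ω)).comp A.e)
    v (Set.range A.ρ')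
    (fun z hz => ⟨⟨z, (A.fixE z).mp fun g => hz _ ⟨g, rfl⟩⟩, rfl⟩) ?_
    {a | a.sum (fun _ c => c) = 0 ∧ a.mapDomain (RPl.pl hK (IsScalarTower.toAlgHom k K E)) = 0} hVP ξ hξ hn _ ?_
  · rintro σ ⟨g, rfl⟩
    refine ⟨Equiv.mulLeft g, fun j x => ?_⟩
    change A.ρ' g (A.ρ' j (A.e x)) = A.ρ' (g * j) (A.e x)
    rw [map_mul]
    rfl
  · rintro b ⟨c, ⟨⟨hc0, hcι⟩, hcμ⟩, rfl⟩
    refine ⟨Fintype.card G * (A.np + A.nm), Nat.mul_pos Fintype.card_pos A.hnp,
      ∑ h, c.mapDomain (fun v => (L v).comap ((A.ρ h : Ω ≃ₐ[k] Ω) : Ω →ₐ[k] Ω)), ?_, fun φ hφ => ?_⟩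
    · have h1 : c.mapDomain (RPl.pl hK j) = 0 := by
        have h2 := congrArg (Finsupp.mapDomain (RPl.pl hK j)) hcι
        rw [← Finsupp.mapDomain_comp] at h2
        have e : (RPl.pl hK j ∘ fun w : RPl k F => w.comap ((ι : F ≃ₐ[k] F) : F →ₐ[k] F)) = RPl.pl hK j := by
          funext w
          ext z
          change ι (j z) ∈ w.ring ↔ j z ∈ w.ring
          rw [hι]
        rw [e] at h2
        have h3 : Finsupp.mapDomain (RPl.pl hK j) (-c) = - Finsupp.mapDomain (RPl.pl hK j) c := by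
          have h4 : Finsupp.mapDomain (RPl.pl hK j) (-c + c) = 0 := by
            rw [neg_add_cancel, Finsupp.mapDomain_zero]
          rw [Finsupp.mapDomain_add] at h4
          exact eq_neg_of_add_eq_zero_left h4
        rw [h3] at h2
        have h5 : (2 : ℤ) • Finsupp.mapDomain (RPl.pl hK j) c = 0 := by
          rw [two_smul]
          nth_rewrite 1 [h2]
          exact neg_add_cancel _
        exact (smul_eq_zero.mp h5).resolve_left two_ne_zero
      refine ⟨?_, ?_⟩
      · have h1 : ∀ {α : Type u} (d : α →₀ ℤ), d.sum (fun _ c => c) = Finsupp.linearCombination ℤ (fun _ => (1 : ℤ)) d := by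
          intro α d
          rw [Finsupp.linearCombination_apply]
          simp
        rw [deg_mapDomain, h1, map_sum]
        refine Finset.sum_eq_zero fun h _ => ?_
        rw [← h1, deg_mapDomain]
        exact hc0
      rw [← Finsupp.mapDomain_comp]
      have h2 : ∀ h : G, Finsupp.mapDomain (RPl.pl hK (IsScalarTower.toAlgHom k K E) ∘ fun w : RPl k Ω => w.comap v)
          (c.mapDomain (fun v => (L v).comap ((A.ρ h : Ω ≃ₐ[k] Ω) : Ω →ₐ[k] Ω))) = c.mapDomain (RPl.pl hK j) := by
        intro h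
        rw [← Finsupp.mapDomain_comp]
        congr 1
        funext w
        ext z
        change A.ρ h (algebraMap K Ω z) ∈ (L w).ring ↔ j z ∈ w.ring
        rw [← A.hj, A.fixF]
        nth_rewrite 2 [← hL w]
        exact Iff.rfl
      rw [Finsupp.mapDomain_finset_sum, Finset.sum_congr rfl fun h _ => h2 h, h1, Finset.sum_const_zero]
    · set u : RPl k F → k := fun v => φ (evP ξ hξ v) with hu
      obtain ⟨μ, hμ, hC⟩ := A.main u ⟨M, ξ, hξ, φ, hφ, fun w => rfl⟩
      rw [Finsupp.linearCombination_mapDomain, map_sum]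
      have h1 : ∀ h : G, Finsupp.linearCombination ℤ (fun w : RPl k Ω => ∑ g : Γ, φ (evP ξ hξ
          (w.comap ((((A.ρ' g : Ω ≃ₐ[k] Ω) : Ω →ₐ[k] Ω)).comp A.e))))
          (c.mapDomain (fun v => (L v).comap ((A.ρ h : Ω ≃ₐ[k] Ω) : Ω →ₐ[k] Ω))) =
          Finsupp.linearCombination ℤ (fun v : RPl k F => ∑ g : Γ, u ((((L v).comap
            ((A.ρ h : Ω ≃ₐ[k] Ω) : Ω →ₐ[k] Ω)).comap ((A.ρ' g : Ω ≃ₐ[k] Ω) : Ω →ₐ[k] Ω)).comap A.e)) c := by
        intro h
        rw [Finsupp.linearCombination_mapDomain]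
        rfl
      rw [Finset.sum_congr rfl fun h _ => h1 h]
      have h2 : ∑ h : G, Finsupp.linearCombination ℤ (fun v : RPl k F => ∑ g : Γ, u ((((L v).comap
            ((A.ρ h : Ω ≃ₐ[k] Ω) : Ω →ₐ[k] Ω)).comap ((A.ρ' g : Ω ≃ₐ[k] Ω) : Ω →ₐ[k] Ω)).comap A.e)) c =
          Finsupp.linearCombination ℤ (fun v : RPl k F => (Fintype.card G : k) * ((A.np : k) * u v -
            (A.nm : k) * u (v.comap ((ι : F ≃ₐ[k] F) : F →ₐ[k] F))) + μ (v.pl hM κ)) c := by
        simp only [Finsupp.linearCombination_apply, Finsupp.sum]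
        rw [Finset.sum_comm]
        refine Finset.sum_congr rfl fun v _ => ?_
        rw [← Finset.smul_sum, hC (L v), hL v]
      rw [h2]
      have h3 : Finsupp.linearCombination ℤ (fun v : RPl k F => (Fintype.card G : k) * ((A.np : k) * u v -
            (A.nm : k) * u (v.comap ((ι : F ≃ₐ[k] F) : F →ₐ[k] F))) + μ (v.pl hM κ)) c =
          (Fintype.card G : k) * ((A.np : k) * Finsupp.linearCombination ℤ u c -
            (A.nm : k) * Finsupp.linearCombination ℤ (fun v : RPl k F => u (v.comap ((ι : F ≃ₐ[k] F) : F →ₐ[k] F))) c) +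
            Finsupp.linearCombination ℤ (fun v : RPl k F => μ (v.pl hM κ)) c := by
        simp only [Finsupp.linearCombination_apply, Finsupp.sum, Finset.mul_sum,
          ← Finset.sum_sub_distrib, ← Finset.sum_add_distrib, zsmul_eq_mul]
        refine Finset.sum_congr rfl fun v _ => ?_
        ring
      have h4 : Finsupp.linearCombination ℤ (fun v : RPl k F => u (v.comap ((ι : F ≃ₐ[k] F) : F →ₐ[k] F))) c =
          - Finsupp.linearCombination ℤ u c := by
        have h5 := congrArg (Finsupp.linearCombination ℤ u) hcι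
        rw [Finsupp.linearCombination_mapDomain, map_neg] at h5
        exact h5
      rw [h3, h4, hcμ μ hμ]
      change _ * Finsupp.linearCombination ℤ u c = _
      push_cast
      ring

end Pool.Agent.Helper83.KN
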