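import Mathlib
import Pool.Agent.Helper9.NS
import Pool.Agent.Helper83.KN.ExA1
import Pool.Agent.Helper83.KN.StepA
import Pool.Agent.Helper28.NT.Defs

/-!
# KN: the blocks A0 and B of the project on nets
-/

set_option linter.unusedSectionVars false

namespace Pool.Agent.Helper83.KN

open VC VF Function Polynomial Pool.Agent.Helper21.TO Pool.Agent.Helper15.GT Pool.Agent.Helper15.KP
open Pool.Agent.NT28
open Pool.Agent.Helper51.VN (Harm)

universe u

lemma kt_eq {k F : Type u} [Field k] [Field F] [Algebra k F] (D : CDB k F) :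
    (IntermediateField.adjoin D.K {D.T}).restrictScalars k = D.Kt :=
  IntermediateField.restrictScalars_adjoin k D.K {D.T}

lemma ff_m {k F : Type u} [Field k] [IsAlgClosed k] [CharZero k] [Field F] [Algebra k F] (D : CDB k F)
    (hK : IsFunctionField k D.K) : IsFunctionField k (IntermediateField.adjoin D.K {D.T}) := by
  have hint : IsIntegral D.K D.T := by
    rw [← isAlgebraic_iff_isIntegral]
    refine ⟨X ^ 2 - Polynomial.C D.h, X_pow_sub_C_ne_zero (by norm_num) _, ?_⟩
    rw [map_sub, map_pow, aeval_X, aeval_C, D.hT]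
    exact sub_self _
  have : FiniteDimensional D.K (IntermediateField.adjoin D.K {D.T}) :=
    IntermediateField.adjoin.finiteDimensional hint
  exact ff_ext hK

theorem a0 : StmtA0.{u} := by
  intro k F _ _ _ _ _ D hK
  have h1 : IsFunctionField k ((IntermediateField.adjoin D.K {D.T}).restrictScalars k) := ff_m D hK
  rw [kt_eq] at h1
  exact h1

/-- The data of block B with an algebra structure. -/
noncomputable def toCK {k F : Type u} [Field k] [Field F] [Algebra k F] (D : CDB k F) : CK D.K F where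
  τ := D.T
  s := D.s
  t := D.t
  ι := AlgEquiv.ofRingEquiv (f := (D.ι : F ≃+* F)) fun z => D.ιK z
  h := D.h
  c := D.c
  h0 := by
    intro h
    have h1 := D.hT
    rw [h] at h1
    exact D.T0 (pow_eq_zero_iff (two_ne_zero) |>.mp h1)
  hτ := D.hT
  tr := D.tr
  gen := by
    rw [eq_top_iff]
    intro z _
    have hz : z ∈ IntermediateField.adjoin k ((D.K : Set F) ∪ {D.T, D.s, D.t}) := by
      rw [D.gen]
      exact IntermediateField.mem_top
    have hle : IntermediateField.adjoin k ((D.K : Set F) ∪ {D.T, D.s, D.t}) ≤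
        (IntermediateField.adjoin D.K {D.T, D.s, D.t}).restrictScalars k := by
      rw [IntermediateField.adjoin_le_iff]
      rintro z (hz | hz)
      · exact (IntermediateField.adjoin D.K {D.T, D.s, D.t}).algebraMap_mem (⟨z, hz⟩ : D.K)
      · exact IntermediateField.subset_adjoin D.K _ hz
    exact hle hz
  ιτ := D.ιT
  ιs := D.ιs
  ιt := D.ιt
  eqn := D.eqn
  c0 := D.c0
  bin := D.bin
  dsc := D.dsc

/-- Block B for the odd combinations on which the harmonic functions of the curve `K (T)` vanish. -/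
theorem b_j (hE : StmtE.{u}) {k F : Type u} [Field k] [IsAlgClosed k] [CharZero k] [Field F] [Algebra k F]
    (D : CDB k F) (hK : IsFunctionField k D.K) (hKt : IsFunctionField k D.Kt) (g : ℕ) (hg : IsGenus k D.K g)
    (hj : ∀ c d : k, c • PS D.c ^ 3 = d • PT D.c ^ 2 → c = 0 ∧ d = 0)
    (E : Place k D.K →₀ ℤ) (h4 : ∀ P : Place k D.K, 0 ≤ ord P.ring (D.h ^ 2 * PS D.c) + 4 * E P)
    (h6 : ∀ P : Place k D.K, 0 ≤ ord P.ring (D.h ^ 3 * PT D.c) + 6 * E P)
    (p : ℕ) (hp : (E.sum fun _ m => m) + g ≤ p + 1)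
    (M : ℕ) (ξ : Fin M → F) (hξ : ξ ≠ 0) (n : ℕ) (hn : p < n) :
    VoisinOn (proj k (van k ξ)) {b | ∃ a ∈ OddJ hKt D.Kt.val D.ι, b = a.mapDomain (evP ξ hξ)} n := by
  classical
  have hι : (toCK D).ι.restrictScalars k = D.ι := AlgEquiv.ext fun z => rfl
  obtain ⟨Ω, _, _, _, _, G, Γ, _, _, _, _, ⟨A⟩⟩ := exists_a1 (k := k) (toCK D) (ff_m D hK)
  have hD : (toCK D).h = D.h := rfl
  have hc : (toCK D).c = D.c := rfl
  rw [hD, hc] at A
  have h0 : D.h ≠ 0 := (toCK D).h0
  have hdsc : PS D.c ^ 3 + PT D.c ^ 2 ≠ 0 := D.dsc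
  have z0 : CharZero D.K := charZero_of_injective_algebraMap (algebraMap k D.K).injective
  have hS0 : PS D.c ≠ 0 := by
    intro h
    have := (hj 1 0 (by rw [h]; simp)).1
    exact one_ne_zero this
  have hT0 : PT D.c ≠ 0 := by
    intro h
    have := (hj 0 1 (by rw [h]; simp)).2
    exact one_ne_zero this
  have hEll : EllVPK hK (27 * D.h ^ 2 * PS D.c) (54 * D.h ^ 3 * PT D.c) p := by
    intro E' _ _ _ _ x y tr eqn gen M' ξ' hξ' n' hn'
    refine VoisinOn.mono (hE k D.K E' hK g hg (27 * D.h ^ 2 * PS D.c) (54 * D.h ^ 3 * PT D.c) ?_ ?_ x y tr eqn gen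
      E ?_ ?_ p hp M' ξ' hξ' n' hn') ?_
    · intro h
      have h1 : (78732 : D.K) * D.h ^ 6 * (PS D.c ^ 3 + PT D.c ^ 2) = 0 := by
        linear_combination h
      rcases mul_eq_zero.mp h1 with h2 | h2
      · rcases mul_eq_zero.mp h2 with h3 | h3
        · norm_num at h3
        · exact h0 (pow_eq_zero_iff (by norm_num) |>.mp h3)
      · exact hdsc h2
    · intro c d h
      obtain ⟨h1, h2⟩ := hj (27 * c) (4 * d) (by
        have h3 : (729 : D.K) * D.h ^ 6 * ((27 * c) • PS D.c ^ 3 - (4 * d) • PT D.c ^ 2) = 0 := by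
          simp only [Algebra.smul_def, map_mul, map_ofNat] at h ⊢
          linear_combination h
        have h4 : (729 : D.K) * D.h ^ 6 ≠ 0 := mul_ne_zero (by norm_num) (pow_ne_zero _ h0)
        exact sub_eq_zero.mp ((mul_eq_zero.mp h3).resolve_left h4))
      exact ⟨(mul_eq_zero.mp h1).resolve_left (by norm_num), (mul_eq_zero.mp h2).resolve_left (by norm_num)⟩
    · intro P
      have h1 : ord P.ring (27 * D.h ^ 2 * PS D.c) = ord P.ring (D.h ^ 2 * PS D.c) := by
        have e : 27 * D.h ^ 2 * PS D.c = (27 : k) • (D.h ^ 2 * PS D.c) := by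
          rw [Algebra.smul_def, map_ofNat, mul_assoc]
        rw [e]
        exact FF.ord_smul hK P (by norm_num) (mul_ne_zero (pow_ne_zero 2 h0) hS0)
      rw [h1]
      exact h4 P
    · intro P
      have h1 : ord P.ring (54 * D.h ^ 3 * PT D.c) = ord P.ring (D.h ^ 3 * PT D.c) := by
        have e : 54 * D.h ^ 3 * PT D.c = (54 : k) • (D.h ^ 3 * PT D.c) := by
          rw [Algebra.smul_def, map_ofNat, mul_assoc]
        rw [e]
        exact FF.ord_smul hK P (by norm_num) (mul_ne_zero (pow_ne_zero 3 h0) hT0)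
      rw [h1]
      exact h6 P
    · rintro b ⟨a, ⟨h1, h2⟩, rfl⟩
      exact ⟨a, h1, h2, rfl⟩
  have h := stepA_k hK (fun z => D.ιK z) A hEll M ξ hξ n hn
  rw [hι] at h
  refine VoisinOn.mono h ?_
  have hkey : ∀ (M' : IntermediateField k F) (_ : M' = D.Kt) (hM' : IsFunctionField k M'),
      OddJ hKt D.Kt.val D.ι ⊆ OddJ hM' M'.val D.ι := by
    rintro _ rfl hM'
    exact subset_rfl
  rintro b ⟨a, ha, rfl⟩
  exact ⟨a, hkey _ (kt_eq D) (ff_m D hK) ha, rfl⟩

theorem b_of (hE : StmtE.{u}) : StmtB.{u} := by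
  intro k F _ _ _ _ _ D hK hKt g hg hj E h4 h6 hinv p hp M ξ hξ n hn
  refine VoisinOn.mono (b_j hE D hK hKt g hg hj E h4 h6 p hp M ξ hξ n hn) ?_
  rintro b ⟨a, ha, rfl⟩
  refine ⟨a, ⟨ha, fun μ hμ => ?_⟩, rfl⟩
  have h5 := congrArg (Finsupp.linearCombination ℤ (fun w : RPl k F => μ (w.pl hKt D.Kt.val))) ha.2
  rw [Finsupp.linearCombination_mapDomain, map_neg] at h5
  have e : ((fun w : RPl k F => μ (w.pl hKt D.Kt.val)) ∘
      fun w : RPl k F => w.comap ((D.ι : F ≃ₐ[k] F) : F →ₐ[k] F)) = fun w => μ (w.pl hKt D.Kt.val) :=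
    funext fun w => hinv μ hμ w
  rw [e] at h5
  exact self_eq_neg.mp h5

end Pool.Agent.Helper83.KN
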