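import Mathlib
import Pool.Agent.Helper28.NT.Defs5
import Pool.Agent.Helper83.KPA.Deg
import Pool.Agent.Helper17.FF.Degree

/-!
# NT: the orders of the coefficients of the elliptic surface
-/

set_option linter.unusedSectionVars false

namespace Pool.Agent.Helper83.KN

open VC Function Polynomial Pool.Agent.Helper15.KP Pool.Agent.NT28
open Pool.Agent.Helper83.PC (act act_map act_smul)
open Pool.Agent.Helper83.KPA (cf)

universe u

variable {k : Type u} [Field k] [IsAlgClosed k] [CharZero k] {K : Type u} [Field K] [Algebra k K]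

/-- A scaled form of the coefficients is regular. -/
lemma mem_act (P : Place k K) (f : Fin 3 → MvPolynomial (Fin 3) k) (M : Matrix (Fin 3) (Fin 3) k)
    {e : Fin 3 → K} {r : K} (h : ∀ i, r * e i ∈ P.ring) {c : Fin 10 → K}
    (hc : ∀ j, c j = act (ce f e) (M.map (algebraMap k K)) j) :
    r ^ 4 * PS c ∈ P.ring ∧ r ^ 6 * PT c ∈ P.ring := by
  let A := P.ring.toSubring
  let g : A →+* K := A.subtype
  let C' : Fin 10 → A := fun j => ∑ i, ⟨r * e i, h i⟩ * ⟨algebraMap k K (cf (f i) j), P.algebraMap_mem _⟩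
  let M' : Matrix (Fin 3) (Fin 3) A := fun a b => ⟨algebraMap k K (M a b), P.algebraMap_mem _⟩
  have h1 : (fun j => g (C' j)) = fun j => r * ce f e j := by
    funext j
    simp only [C', ce, map_sum, map_mul, Finset.mul_sum]
    refine Finset.sum_congr rfl fun i _ => ?_
    change (r * e i) * algebraMap k K (cf (f i) j) = _
    ring
  have h2 : M'.map g = M.map (algebraMap k K) := by
    ext a b
    rfl
  have h3 : (fun j => r * c j) = fun j => g (act C' M' j) := by
    rw [← act_map, h1, h2, act_smul]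
    funext j
    rw [hc]
  constructor
  · rw [← Pool.Agent.Helper83.KPA.PS_smul, h3, Pool.Agent.Helper83.KPA.PS_map]
    exact (PS (act C' M')).2
  · rw [← Pool.Agent.Helper83.KPA.PT_smul, h3, Pool.Agent.Helper83.KPA.PT_map]
    exact (PT (act C' M')).2

/-- The height at a place and the orders of the invariants. -/
theorem exists_H (hK : IsFunctionField k K) (P : Place k K) (f : Fin 3 → MvPolynomial (Fin 3) k)
    (M : Matrix (Fin 3) (Fin 3) k) (x y : K) {c : Fin 10 → K}
    (hc : ∀ j, c j = act (ce f ![x, y, 1]) (M.map (algebraMap k K)) j) :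
    ∃ H : ℤ, 0 ≤ H ∧ (0 ≤ ord P.ring x + H ∨ x = 0) ∧ (0 ≤ ord P.ring y + H ∨ y = 0) ∧
      (H = 0 ∨ ord P.ring x = - H ∨ ord P.ring y = - H) ∧
      (PS c ≠ 0 → 0 ≤ ord P.ring (PS c) + 4 * H) ∧ (PT c ≠ 0 → 0 ≤ ord P.ring (PT c) + 6 * H) := by
  obtain ⟨H, h0, hx, hy, hH⟩ : ∃ H : ℤ, 0 ≤ H ∧ 0 ≤ ord P.ring x + H ∧ 0 ≤ ord P.ring y + H ∧
      (H = 0 ∨ ord P.ring x = - H ∨ ord P.ring y = - H) := by
    refine ⟨max 0 (max (- ord P.ring x) (- ord P.ring y)), le_max_left _ _, ?_, ?_, ?_⟩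
    · have := (le_max_left (- ord P.ring x) (- ord P.ring y)).trans (le_max_right (0 : ℤ) _)
      omega
    · have := (le_max_right (- ord P.ring x) (- ord P.ring y)).trans (le_max_right (0 : ℤ) _)
      omega
    · rcases max_choice 0 (max (- ord P.ring x) (- ord P.ring y)) with h | h
      · exact Or.inl h
      · rcases max_choice (- ord P.ring x) (- ord P.ring y) with h' | h'
        · right; left; rw [h, h', neg_neg]
        · right; right; rw [h, h', neg_neg]
  obtain ⟨r, hr0, hr⟩ : ∃ r : K, r ≠ 0 ∧ ord P.ring r = H := by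
    rcases hH with h | h | h
    · exact ⟨1, one_ne_zero, by rw [h]; exact FF.ord_one hK P⟩
    · by_cases hx0 : x = 0
      · refine ⟨1, one_ne_zero, ?_⟩
        rw [hx0, FF.ord_zero] at h
        rw [FF.ord_one hK P]
        omega
      · exact ⟨x⁻¹, inv_ne_zero hx0, by rw [FF.ord_inv hK P hx0, h, neg_neg]⟩
    · by_cases hy0 : y = 0
      · refine ⟨1, one_ne_zero, ?_⟩
        rw [hy0, FF.ord_zero] at h
        rw [FF.ord_one hK P]
        omega
      · exact ⟨y⁻¹, inv_ne_zero hy0, by rw [FF.ord_inv hK P hy0, h, neg_neg]⟩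
  have hmem : ∀ z : K, 0 ≤ ord P.ring z + H → r * z ∈ P.ring := by
    intro z hz
    by_cases hz0 : z = 0
    · rw [hz0, mul_zero]
      exact P.ring.zero_mem
    · rw [← FF.ord_nonneg_iff hK P (mul_ne_zero hr0 hz0), FF.ord_mul hK P hr0 hz0, hr]
      omega
  obtain ⟨h4, h6⟩ := mem_act P f M (e := ![x, y, 1]) (r := r) (fun i => by
    match i with
    | 0 => exact hmem x hx
    | 1 => exact hmem y hy
    | 2 => exact hmem 1 (by rw [FF.ord_one hK P]; omega)) hc
  refine ⟨H, h0, Or.inl hx, Or.inl hy, hH, fun hs => ?_, fun ht => ?_⟩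
  · rw [← FF.ord_nonneg_iff hK P (mul_ne_zero (pow_ne_zero 4 hr0) hs), FF.ord_mul hK P (pow_ne_zero 4 hr0) hs,
      FF.ord_pow hK P hr0, hr] at h4
    push_cast at h4
    omega
  · rw [← FF.ord_nonneg_iff hK P (mul_ne_zero (pow_ne_zero 6 hr0) ht), FF.ord_mul hK P (pow_ne_zero 6 hr0) ht,
      FF.ord_pow hK P hr0, hr] at h6
    push_cast at h6
    omega

end Pool.Agent.Helper83.KN
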