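import Mathlib
import Pool.Agent.Helper83.KN.OrdN
import Pool.Agent.Helper17.NT.L3
import Pool.Agent.Helper40.NT.L1

/-!
# NT: the divisor of the elliptic surface
-/

set_option linter.unusedSectionVars false

namespace Pool.Agent.Helper83.KN

open VC Function Polynomial Pool.Agent.Helper15.KP Pool.Agent.NT28
open Pool.Agent.Helper83.PC (act act_map act_smul)
open Pool.Agent.Helper83.KPA (cf)

universe u

lemma vec3_map {R S : Type*} [CommRing R] [CommRing S] (φ : R →+* S) (x y : R) :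
    (fun i => φ ((![x, y, 1] : Fin 3 → R) i)) = ![φ x, φ y, 1] := by
  funext i
  fin_cases i
  · rfl
  · rfl
  · exact map_one φ

lemma adj_mapN {k L M : Type*} [Field k] [CommRing L] [Algebra k L] [CommRing M] [Algebra k M]
    (φ : L →ₐ[k] M) (Q : Fin 3 → Matrix (Fin 3) (Fin 3) k) (e : Fin 3 → L) (a b : Fin 3) :
    φ ((qm (ext L Q) e).adjugate a b) = (qm (ext M Q) (fun i => φ (e i))).adjugate a b := by
  have h1 := RingHom.map_adjugate (φ : L →+* M) (qm (ext L Q) e)
  have h2 : (φ : L →+* M).mapMatrix (qm (ext L Q) e) = qm (ext M Q) (fun i => φ (e i)) := by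
    have h4 := qm_map (φ : L →+* M) (ext L Q) e
    rw [ext_map17] at h4
    exact h4
  rw [h2] at h1
  have h3 := congrFun (congrFun h1 a) b
  exact h3

lemma ce_mapN {k L M : Type u} [Field k] [Field L] [Algebra k L] [Field M] [Algebra k M]
    (φ : L →ₐ[k] M) (f : Fin 3 → MvPolynomial (Fin 3) k) (e : Fin 3 → L) :
    (fun j => (φ : L →+* M) (ce f e j)) = ce f (fun i => φ (e i)) := by
  funext j
  simp [ce]

variable {k : Type u} [Field k] [IsAlgClosed k] [CharZero k]

theorem exists_E (hD : StmtD.{u}) {F : Type u} [Field F] [Algebra k F] {D : Net k F} {N F6 G : Type u} [Field N]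
    [CharZero N] [Algebra k N] [Field F6] [Algebra k F6] [Group G] [Fintype G] (O : FOut2 D N F6 G) :
    IsFunctionField k O.C.K ∧ ∃ g : ℕ, IsGenus k O.C.K g ∧ ∃ E : Place k O.C.K →₀ ℤ,
      (∀ P : Place k O.C.K, 0 ≤ ord P.ring (O.C.h ^ 2 * PS O.C.c) + 4 * E P) ∧
      (∀ P : Place k O.C.K, 0 ≤ ord P.ring (O.C.h ^ 3 * PT O.C.c) + 6 * E P) ∧
      (E.sum fun _ m => m) + (g : ℤ) ≤ (3 : ℕ) + 1 ∧
      ∀ c d : k, c • PS O.C.c ^ 3 = d • PT O.C.c ^ 2 → c = 0 ∧ d = 0 := by
  have hx : O.x ∈ O.C.K := by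
    rw [O.hK]
    exact IntermediateField.subset_adjoin _ _ (by simp)
  have hy : O.y ∈ O.C.K := by
    rw [O.hK]
    exact IntermediateField.subset_adjoin _ _ (by simp)
  have hinj : Function.Injective (O.C.K.val : O.C.K →ₐ[k] F6) := (O.C.K.val : O.C.K →ₐ[k] F6).toRingHom.injective
  obtain ⟨x', hx'⟩ : ∃ x' : O.C.K, O.C.K.val x' = O.x := ⟨⟨O.x, hx⟩, rfl⟩
  obtain ⟨y', hy'⟩ : ∃ y' : O.C.K, O.C.K.val y' = O.y := ⟨⟨O.y, hy⟩, rfl⟩
  have hvec : (fun i => O.C.K.val ((![x', y', 1] : Fin 3 → O.C.K) i)) = ![O.x, O.y, 1] := by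
    have := vec3_map (O.C.K.val : O.C.K →+* F6) x' y'
    rw [← hx', ← hy']
    exact this
  have hgen : IntermediateField.adjoin k {x', y'} = ⊤ := by
    apply IntermediateField.lift_injective O.C.K
    rw [IntermediateField.lift_adjoin, IntermediateField.lift_top, Set.image_pair]
    have h1 : ((x' : O.C.K) : F6) = O.x := hx'
    have h2 : ((y' : O.C.K) : F6) = O.y := hy'
    rw [h1, h2]
    exact O.hK.symm
  have hdl : dl (ext O.C.K D.Q) ![x', y', 1] = 0 := by
    apply hinj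
    rw [dl_map17, hvec, O.hdl, map_zero]
  have hgnr : ¬ IsAlgebraic k x' ∨ ¬ IsAlgebraic k y' := by
    rcases O.gnr with h | h
    · left
      intro h1
      apply h
      rw [← hx']
      exact h1.algHom _
    · right
      intro h1
      apply h
      rw [← hy']
      exact h1.algHom _
  obtain ⟨hff, g, hg, hg1, hE⟩ := hD k O.C.K D.Q D.smo x' y' hgnr hdl hgen
  have hadj : O.C.h = - 4 * (qm (ext O.C.K D.Q) ![x', y', 1]).adjugate O.i O.i := by
    apply hinj
    rw [map_mul, adj_mapN, hvec, map_neg, map_ofNat, ← O.hadj, ← O.hT, ← pow_two, O.C.hT]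
    rfl
  have hh0 : O.C.h ≠ 0 := by
    intro h0
    have h1 := O.C.hT
    rw [h0] at h1
    exact O.C.T0 (pow_eq_zero_iff (two_ne_zero) |>.mp h1)
  have hadj0 : (qm (ext O.C.K D.Q) ![x', y', 1]).adjugate O.i O.i ≠ 0 := by
    intro h0
    rw [h0, mul_zero] at hadj
    exact hh0 hadj
  obtain ⟨E, hE3, hE2⟩ := hE O.i hadj0
  have hS : PS O.C.c ≠ 0 := by
    intro h0
    have h1 := (O.hj 1 0 (by rw [h0]; simp)).1
    exact one_ne_zero h1
  have hT : PT O.C.c ≠ 0 := by
    intro h0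
    have h1 := (O.hj 0 1 (by rw [h0]; simp)).2
    exact one_ne_zero h1
  have hc : ∀ j, O.C.c j = act (ce D.f ![x', y', 1]) (O.M.map (algebraMap k O.C.K)) j := by
    intro j
    apply hinj
    have h1 := act_map (O.C.K.val : O.C.K →+* F6) (ce D.f ![x', y', 1]) (O.M.map (algebraMap k O.C.K))
    have h2 : (O.M.map (algebraMap k O.C.K)).map (O.C.K.val : O.C.K →+* F6) = O.M.map (algebraMap k F6) := by
      ext a b
      rfl
    rw [ce_mapN, hvec, h2] at h1
    have h3 := congrFun h1 j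
    rw [← O.hc] at h3
    exact h3
  have hord : ∀ P : Place k O.C.K, ord P.ring O.C.h = ord P.ring ((qm (ext O.C.K D.Q) ![x', y', 1]).adjugate O.i O.i) := by
    intro P
    have h4 : (-4 : k) ≠ 0 := by norm_num
    have h5 : O.C.h = (-4 : k) • (qm (ext O.C.K D.Q) ![x', y', 1]).adjugate O.i O.i := by
      rw [hadj, Algebra.smul_def, map_neg, map_ofNat]
    rw [h5]
    exact FF.ord_smul hff P h4 hadj0
  refine ⟨hff, g, hg, E, fun P => ?_, fun P => ?_, ?_, O.hj⟩
  · obtain ⟨H, h0, h1, h2, h3, h4, h6⟩ := exists_H hff P D.f O.M x' y' hc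
    have h7 := hE2 P H h0 h1 h2 h3
    have h8 := h4 hS
    rw [FF.ord_mul hff P (pow_ne_zero 2 hh0) hS, FF.ord_pow hff P hh0, hord]
    push_cast
    omega
  · obtain ⟨H, h0, h1, h2, h3, h4, h6⟩ := exists_H hff P D.f O.M x' y' hc
    have h7 := hE2 P H h0 h1 h2 h3
    have h8 := h6 hT
    rw [FF.ord_mul hff P (pow_ne_zero 3 hh0) hT, FF.ord_pow hff P hh0, hord]
    push_cast
    omega
  · push_cast
    omega

end Pool.Agent.Helper83.KN
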