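import Mathlib
import Pool.Agent.Helper9.NS
import Pool.Agent.Helper5.KP.Rat

/-!
# KN: the trace of a harmonic function of a curve to a rational surface is constant
-/

set_option linter.unusedSectionVars false

namespace Pool.Agent.Helper83.KN

open VC VF Function Polynomial Pool.Agent.Helper21.TO Pool.Agent.Helper21.TB Pool.Agent.Helper15.GT
open Pool.Agent.Helper15.KP
open Pool.Agent.Helper51.VN (Harm)

universe u

variable {k : Type u} [Field k] [IsAlgClosed k] [CharZero k]

/-- Harmonic functions on the places of `k (s, t)` are constant. -/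
lemma rat_adjoin {N : Type u} [Field N] [Algebra k N] (s t : N) (h : AlgebraicIndependent k ![s, t])
    (u : RPl k (IntermediateField.adjoin k {s, t}) → k) (hu : HF k _ u) (w w' : RPl k _) : u w = u w' := by
  have hs : s ∈ IntermediateField.adjoin k {s, t} := IntermediateField.subset_adjoin _ _ (by simp)
  have ht : t ∈ IntermediateField.adjoin k {s, t} := IntermediateField.subset_adjoin _ _ (by simp)
  refine HF.const_of_rat (⟨s, hs⟩ : IntermediateField.adjoin k {s, t}) ⟨t, ht⟩ ?_ ?_ hu w w'
  · have h1 := h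
    have e : ![s, t] = (IntermediateField.val (IntermediateField.adjoin k {s, t})) ∘
        ![⟨s, hs⟩, ⟨t, ht⟩] := by
      funext i
      fin_cases i <;> rfl
    rw [e] at h1
    exact h1.of_comp _
  · apply IntermediateField.map_injective (IntermediateField.val (IntermediateField.adjoin k {s, t}))
    rw [IntermediateField.adjoin_map, Set.image_insert_eq, Set.image_singleton,
      ← AlgHom.fieldRange_eq_map, IntermediateField.fieldRange_val]
    rfl

/-- LEMMA T. -/
theorem lemT {M : Type u} [Field M] [Algebra k M] (hM : IsFunctionField k M) {ν : Place k M → k}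
    (hν : HF k M (fun w => ν (w.pl hM (AlgHom.id k M)))) {N : Type u} [Field N] [Algebra k N] (z w : N)
    (hzw : AlgebraicIndependent k ![z, w]) (halg : Algebra.IsAlgebraic (IntermediateField.adjoin k {z, w}) N)
    {J : Type u} [Fintype J] [Nonempty J] (φ : J → M →ₐ[k] N)
    (hp : ∀ (L : Type u) [Field L] [Algebra k L] (σ τ : N →ₐ[k] L), σ z = τ z → σ w = τ w →
      ∃ π : Equiv.Perm J, ∀ j x, σ (φ j x) = τ (φ (π j) x)) :
    ∃ C : k, ∀ v : RPl k N, ∑ j, ν (v.pl hM (φ j)) = C := by
  classical
  by_cases hne : Nonempty (RPl k N)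
  swap
  · exact ⟨0, fun v => (hne ⟨v⟩).elim⟩
  obtain ⟨v₀⟩ := hne
  have hN : CharZero N := charZero_of_injective_algebraMap (algebraMap k N).injective
  let A := IntermediateField.adjoin k {z, w}
  have hA : CharZero A := charZero_of_injective_algebraMap (algebraMap k A).injective
  let L := AlgebraicClosure N
  haveI h1 : Algebra.IsAlgebraic A L := Algebra.IsAlgebraic.trans A N L
  haveI h2 : IsAlgClosure A L := ⟨inferInstance, h1⟩
  haveI h3 : Normal A L := IsAlgClosure.normal A L
  haveI h4 : IsGalois A L := ⟨⟩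
  let ι : N →ₐ[k] L := IsScalarTower.toAlgHom k N L
  let e : A →ₐ[k] L := IsScalarTower.toAlgHom k A L
  obtain ⟨u', hu', hu⟩ := HF.fam (fun j => ι.comp (φ j)) e
    (Set.range fun σ : L ≃ₐ[A] L => σ.restrictScalars k) (fun x hx => by
      have h5 : x ∈ (⊥ : IntermediateField A L) := by
        rw [InfiniteGalois.mem_bot_iff_fixed]
        intro σ
        exact hx _ ⟨σ, rfl⟩
      obtain ⟨y, hy⟩ := IntermediateField.mem_bot.mp h5
      exact ⟨y, hy⟩) (by
      rintro _ ⟨σ, rfl⟩
      have hz : ∀ y ∈ A, σ (ι y) = ι y := fun y hy => σ.commutes ⟨y, hy⟩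
      obtain ⟨π, hπ⟩ := hp L (((σ.restrictScalars k : L ≃ₐ[k] L) : L →ₐ[k] L).comp ι) ι
        (hz z (IntermediateField.subset_adjoin _ _ (by simp)))
        (hz w (IntermediateField.subset_adjoin _ _ (by simp)))
      exact ⟨π, fun j x => hπ j x⟩) hν
  refine ⟨∑ j, ν (v₀.pl hM (φ j)), fun v => ?_⟩
  have key : ∀ v : RPl k N, ∃ w' : RPl k A, ∑ j, ν (v.pl hM (φ j)) = u' w' := by
    intro v
    obtain ⟨w', hw'⟩ := exists_lift ι v
    refine ⟨w'.comap e, ?_⟩
    rw [hu w']
    refine Finset.sum_congr rfl fun j _ => ?_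
    rw [← hw']
    congr 1
  obtain ⟨a, ha⟩ := key v
  obtain ⟨b, hb⟩ := key v₀
  rw [ha, hb]
  exact rat_adjoin z w hzw u' hu' a b

end Pool.Agent.Helper83.KN
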