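import Mathlib
import Pool.Agent.Helper9.NS
import Pool.Agent.Helper15.KP.StepB
import Pool.Agent.Helper83.KN.Defs

/-!
# KN: step B for the odd cycles which are killed by the harmonic functions of a curve
-/

set_option linter.unusedSectionVars false

namespace Pool.Agent.Helper83.KN

open VC VF Function Polynomial Pool.Agent.Helper21.TO Pool.Agent.Helper21.TB Pool.Agent.Helper15.GT
open Pool.Agent.Helper15.KP
open Pool.Agent.Helper51.VN (Harm)

universe u

variable {k : Type u} [Field k] [IsAlgClosed k] [CharZero k]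

lemma lc_const {α : Type*} {f : α → k} {C : k} (hf : ∀ v, f v = C) (c : α →₀ ℤ) (hc : c.sum (fun _ c => c) = 0) :
    Finsupp.linearCombination ℤ f c = 0 := by
  have h1 : Finsupp.linearCombination ℤ f c = ((c.sum (fun _ c => c) : ℤ) : k) * C := by
    simp only [Finsupp.linearCombination_apply, Finsupp.sum, Int.cast_sum, Finset.sum_mul, hf, zsmul_eq_mul]
  rw [h1, hc, Int.cast_zero, zero_mul]

variable {F N F6 G M : Type u} [Field F] [Algebra k F] [Field N] [Algebra k N] [Field F6] [Algebra k F6]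
  [Group G] [Fintype G] {ι : F6 ≃ₐ[k] F6} [Field M] [Algebra k M]

open Classical in
theorem stepB_j (D : QG k F N F6 G ι) (hM : IsFunctionField k M) (κ : M →ₐ[k] F6) (τ : M →ₐ[k] M)
    (hτ : ∀ z, ι (κ z) = κ (τ z))
    (hH : ∀ μ : Place k M → k, Harm hM μ → ∃ C : k, ∀ w : RPl k N, ∑ j, (if D.Cj j then
      μ (((w.comap ((D.ρ (D.gj j) : N ≃ₐ[k] N) : N →ₐ[k] N)).comap D.e6).pl hM κ) else 0) = C)
    {p : ℕ}
    (hA : ∀ (M' : ℕ) (η : Fin M' → F6) (hη : η ≠ 0) (n : ℕ), p < n →
      VoisinOn (proj k (van k η)) {b | ∃ a ∈ OddJ hM κ ι, b = a.mapDomain (evP η hη)} n)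
    (hrat : ∀ u : RPl k (IntermediateField.adjoin k {D.s, D.t}) → k, HF k _ u → ∀ w w', u w = u w') :
    VP k F p := by
  intro M' ξ hξ n hn
  rw [← voisinOn_iff]
  choose L hL using fun v : RPl k F => exists_lift (D.e 0) v
  choose pt hpt using exists_rpl_evP (k := k) ξ hξ
  let f : ULift.{u} (Fin 2) → F →ₐ[k] N := fun i => D.e (if i.down = 0 then 0 else 1)
  have hf : ∀ w : RPl k N, ∀ φ : RPl k F → k, ∑ j, φ (w.comap (f j)) = φ (w.comap (D.e 0)) + φ (w.comap (D.e 1)) := by
    intro w φ
    rw [← Equiv.sum_comp Equiv.ulift.symm, Fin.sum_univ_two]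
    rfl
  refine voisin_fam f D.e6 {σ | ∃ g, ((D.act g 0 = 0 ∧ D.act g 1 = 1) ∨ (D.act g 0 = 1 ∧ D.act g 1 = 0)) ∧
    σ = D.ρ g} (fun z hz => (D.fix6 z).mp fun g hg => hz _ ⟨g, hg, rfl⟩) ?_ (OddJ hM κ ι) hA ξ hξ hn _ ?_
  · rintro σ ⟨g, hg, rfl⟩
    rcases hg with ⟨h0, h1⟩ | ⟨h0, h1⟩
    · refine ⟨Equiv.refl _, fun j x => ?_⟩
      rcases j with ⟨j⟩
      fin_cases j
      · exact (D.hact g 0 x).trans (by rw [h0]; rfl)
      · exact (D.hact g 1 x).trans (by rw [h1]; rfl)
    · refine ⟨Equiv.ulift.trans ((Equiv.swap 0 1).trans Equiv.ulift.symm), fun j x => ?_⟩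
      rcases j with ⟨j⟩
      fin_cases j
      · exact (D.hact g 0 x).trans (by rw [h0]; rfl)
      · exact (D.hact g 1 x).trans (by rw [h1]; rfl)
  · intro b hb
    set c : RPl k F →₀ ℤ := b.mapDomain pt with hc
    have hbc : b = c.mapDomain (evP ξ hξ) := by
      rw [hc, ← Finsupp.mapDomain_comp]
      have e : evP ξ hξ ∘ pt = id := by
        funext s
        exact hpt s
      rw [e, Finsupp.mapDomain_id]
    have hc0 : c.sum (fun _ c => c) = 0 := by
      rw [hc, deg_mapDomain]
      exact hb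
    clear_value c
    set a₀ : RPl k N →₀ ℤ := ∑ j, if D.Cj j then c.mapDomain (fun v => (L v).comap
      ((D.ρ (D.gj j) : N ≃ₐ[k] N) : N →ₐ[k] N)) else 0 with ha₀
    refine ⟨4, by norm_num, a₀ - a₀.mapDomain (fun w => w.comap ((D.ρ D.gι : N ≃ₐ[k] N) : N →ₐ[k] N)), ?_,
      fun φ hφ => ?_⟩
    · refine ⟨?_, fun μ hμ => ?_⟩
      · have h1 := sub_mem_odd ι D.ιι (a₀.mapDomain (fun w => w.comap D.e6))
        rw [Finsupp.mapDomain_sub]
        convert h1 using 2
        rw [← Finsupp.mapDomain_comp, ← Finsupp.mapDomain_comp]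
        congr 1
        funext w
        change (w.comap _).comap _ = (w.comap _).comap _
        rw [RPl.comap_comap, RPl.comap_comap]
        congr 1
        ext z
        exact D.hι z
      · have hν : Harm hM (fun v => μ v - μ (Place.comap hM hM τ v)) := harm_sub hμ (pull_harm hM τ hμ)
        obtain ⟨C, hC⟩ := hH _ hν
        have e1 : ∀ w : RPl k N, ((w.comap ((D.ρ D.gι : N ≃ₐ[k] N) : N →ₐ[k] N)).comap D.e6).pl hM κ =
            Place.comap hM hM τ ((w.comap D.e6).pl hM κ) := by
          intro w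
          ext z
          change D.ρ D.gι (D.e6 (κ z)) ∈ w.ring ↔ D.e6 (κ (τ z)) ∈ w.ring
          rw [D.hι, hτ]
        rw [Finsupp.linearCombination_mapDomain, map_sub, Finsupp.linearCombination_mapDomain, lin_sub_fn, ha₀,
          map_sum]
        have h2 : ∀ j : Fin 4, Finsupp.linearCombination ℤ (fun w : RPl k N =>
            ((fun w : RPl k F6 => μ (w.pl hM κ)) ∘ fun w => w.comap D.e6) w -
              (((fun w : RPl k F6 => μ (w.pl hM κ)) ∘ fun w => w.comap D.e6) ∘
                fun w => w.comap ((D.ρ D.gι : N ≃ₐ[k] N) : N →ₐ[k] N)) w)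
            (if D.Cj j then c.mapDomain (fun v => (L v).comap
              ((D.ρ (D.gj j) : N ≃ₐ[k] N) : N →ₐ[k] N)) else 0) =
            Finsupp.linearCombination ℤ (fun v : RPl k F => if D.Cj j then
              (fun v => μ v - μ (Place.comap hM hM τ v)) ((((L v).comap
                ((D.ρ (D.gj j) : N ≃ₐ[k] N) : N →ₐ[k] N)).comap D.e6).pl hM κ) else 0) c := by
          intro j
          by_cases hj : D.Cj j
          · simp only [if_pos hj]
            rw [Finsupp.linearCombination_mapDomain]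
            congr 2
            funext v
            simp only [Function.comp_apply]
            rw [e1]
          · simp only [if_neg hj, map_zero]
            rw [Finsupp.linearCombination_apply]
            simp
        rw [Finset.sum_congr rfl fun j _ => h2 j]
        have h3 : ∑ j : Fin 4, Finsupp.linearCombination ℤ (fun v : RPl k F => if D.Cj j then
              (fun v => μ v - μ (Place.comap hM hM τ v)) ((((L v).comap
                ((D.ρ (D.gj j) : N ≃ₐ[k] N) : N →ₐ[k] N)).comap D.e6).pl hM κ) else 0) c =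
            Finsupp.linearCombination ℤ (fun v : RPl k F => ∑ j : Fin 4, if D.Cj j then
              (fun v => μ v - μ (Place.comap hM hM τ v)) ((((L v).comap
                ((D.ρ (D.gj j) : N ≃ₐ[k] N) : N →ₐ[k] N)).comap D.e6).pl hM κ) else 0) c := by
          simp only [Finsupp.linearCombination_apply, Finsupp.sum]
          rw [Finset.sum_comm]
          refine Finset.sum_congr rfl fun v _ => ?_
          rw [← Finset.smul_sum]
        rw [h3]
        exact lc_const (C := C) (fun v => hC (L v)) c hc0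
    · obtain ⟨S, hS⟩ := D.main hrat (u := fun v => φ (evP ξ hξ v)) ⟨M', ξ, hξ, φ, hφ, fun w => rfl⟩
      have h1 : (fun w : RPl k N => ∑ j, φ (evP ξ hξ (w.comap (f j)))) = fun w => φ (evP ξ hξ (w.comap (D.e 0))) +
          φ (evP ξ hξ (w.comap (D.e 1))) := by
        funext w
        exact hf w (fun v => φ (evP ξ hξ v))
      rw [h1, map_sub, Finsupp.linearCombination_mapDomain, ha₀, map_sum, map_sum, ← Finset.sum_sub_distrib]
      have h2 : ∀ j : Fin 4, Finsupp.linearCombination ℤ (fun w : RPl k N => φ (evP ξ hξ (w.comap (D.e 0))) +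
          φ (evP ξ hξ (w.comap (D.e 1)))) (if D.Cj j then c.mapDomain (fun v => (L v).comap
            ((D.ρ (D.gj j) : N ≃ₐ[k] N) : N →ₐ[k] N)) else 0) -
          Finsupp.linearCombination ℤ ((fun w : RPl k N => φ (evP ξ hξ (w.comap (D.e 0))) +
          φ (evP ξ hξ (w.comap (D.e 1)))) ∘ fun w => w.comap ((D.ρ D.gι : N ≃ₐ[k] N) : N →ₐ[k] N))
            (if D.Cj j then c.mapDomain (fun v => (L v).comap
              ((D.ρ (D.gj j) : N ≃ₐ[k] N) : N →ₐ[k] N)) else 0) =
          Finsupp.linearCombination ℤ (fun v : RPl k F => if D.Cj j then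
            ((φ (evP ξ hξ (((L v).comap ((D.ρ (D.gj j) : N ≃ₐ[k] N) : N →ₐ[k] N)).comap (D.e 0))) +
              φ (evP ξ hξ (((L v).comap ((D.ρ (D.gj j) : N ≃ₐ[k] N) : N →ₐ[k] N)).comap (D.e 1)))) -
            (φ (evP ξ hξ ((((L v).comap ((D.ρ (D.gj j) : N ≃ₐ[k] N) : N →ₐ[k] N)).comap
                ((D.ρ D.gι : N ≃ₐ[k] N) : N →ₐ[k] N)).comap (D.e 0))) +
              φ (evP ξ hξ ((((L v).comap ((D.ρ (D.gj j) : N ≃ₐ[k] N) : N →ₐ[k] N)).comap
                ((D.ρ D.gι : N ≃ₐ[k] N) : N →ₐ[k] N)).comap (D.e 1))))) else 0) c := by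
        intro j
        by_cases hj : D.Cj j
        · simp only [if_pos hj]
          rw [Finsupp.linearCombination_mapDomain, Finsupp.linearCombination_mapDomain]
          rw [lin_sub_fn]
          rfl
        · simp only [if_neg hj, map_zero, sub_zero]
          rw [Finsupp.linearCombination_apply]
          simp
      rw [Finset.sum_congr rfl fun j _ => h2 j]
      have h3 : ∑ j : Fin 4, Finsupp.linearCombination ℤ (fun v : RPl k F => if D.Cj j then
            ((φ (evP ξ hξ (((L v).comap ((D.ρ (D.gj j) : N ≃ₐ[k] N) : N →ₐ[k] N)).comap (D.e 0))) +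
              φ (evP ξ hξ (((L v).comap ((D.ρ (D.gj j) : N ≃ₐ[k] N) : N →ₐ[k] N)).comap (D.e 1)))) -
            (φ (evP ξ hξ ((((L v).comap ((D.ρ (D.gj j) : N ≃ₐ[k] N) : N →ₐ[k] N)).comap
                ((D.ρ D.gι : N ≃ₐ[k] N) : N →ₐ[k] N)).comap (D.e 0))) +
              φ (evP ξ hξ ((((L v).comap ((D.ρ (D.gj j) : N ≃ₐ[k] N) : N →ₐ[k] N)).comap
                ((D.ρ D.gι : N ≃ₐ[k] N) : N →ₐ[k] N)).comap (D.e 1))))) else 0) c =
          Finsupp.linearCombination ℤ (fun v : RPl k F => 4 * φ (evP ξ hξ v) - S) c := by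
        simp only [Finsupp.linearCombination_apply, Finsupp.sum]
        rw [Finset.sum_comm]
        refine Finset.sum_congr rfl fun v _ => ?_
        rw [← Finset.smul_sum]
        congr 1
        have h4 := hS (L v)
        beta_reduce at h4
        rw [hL v] at h4
        rw [h4, add_sub_cancel_right]
      rw [h3, hbc, Finsupp.linearCombination_mapDomain]
      have h5 : Finsupp.linearCombination ℤ (fun v : RPl k F => 4 * φ (evP ξ hξ v) - S) c =
          4 * Finsupp.linearCombination ℤ (fun v : RPl k F => φ (evP ξ hξ v)) c -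
            ((c.sum (fun _ c => c) : ℤ) : k) * S := by
        simp only [Finsupp.linearCombination_apply, Finsupp.sum, Finset.mul_sum, Int.cast_sum, Finset.sum_mul,
          ← Finset.sum_sub_distrib, zsmul_eq_mul]
        refine Finset.sum_congr rfl fun v _ => ?_
        ring
      rw [h5, hc0]
      change ((4 : ℕ) : k) * Finsupp.linearCombination ℤ (fun v : RPl k F => φ (evP ξ hξ v)) c = _
      push_cast
      ring

end Pool.Agent.Helper83.KN
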