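import Mathlib
import Pool.Agent.Helper9.NS
import Pool.Agent.Helper83.KN.EDiv
import Pool.Agent.Helper83.KN.P2
import Pool.Agent.Helper83.KN.LemT
import Pool.Agent.Helper83.KN.B
import Pool.Agent.Helper67.NT.V
import Pool.Agent.Helper98.NT.ZW

/-!
# NT: the main theorem from its blocks
-/

set_option linter.unusedSectionVars false

namespace Pool.Agent.Helper83.KN

open VC VF Function Polynomial Pool.Agent.Helper21.TO Pool.Agent.Helper21.TB Pool.Agent.Helper15.GT
open Pool.Agent.Helper15.KP Pool.Agent.NT28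
open Pool.Agent.Helper51.VN (Harm)

universe u

/-- T1: a harmonic function on the places of a function field of one variable is harmonic on its rational places. -/
def StmtHf : Prop :=
  ∀ (k M : Type u) [Field k] [IsAlgClosed k] [CharZero k] [Field M] [Algebra k M] (hM : IsFunctionField k M)
    (ν : Place k M → k), Harm hM ν → HF k M (fun w => ν (w.pl hM (AlgHom.id k M)))

lemma eq_on_adjoin {k F L : Type*} [Field k] [Field F] [Algebra k F] [Field L] [Algebra k L] (f g : F →ₐ[k] L)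
    (S : Set F) (h : ∀ z ∈ S, f z = g z) : ∀ z ∈ IntermediateField.adjoin k S, f z = g z := by
  intro z hz
  induction hz using IntermediateField.adjoin_induction with
  | mem x hx => exact h x hx
  | algebraMap x => rw [AlgHom.commutes, AlgHom.commutes]
  | add x y _ _ hx hy => rw [map_add, map_add, hx, hy]
  | inv x _ hx => rw [map_inv₀, map_inv₀, hx]
  | mul x y _ _ hx hy => rw [map_mul, map_mul, hx, hy]

variable {k : Type u} [Field k] [IsAlgClosed k] [CharZero k]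

/-- `N` is algebraic over the fixed field. -/
lemma QG.alg {F N F6 G : Type u} [Field F] [Algebra k F] [Field N] [Algebra k N] [Field F6] [Algebra k F6]
    [Group G] [Fintype G] {ι : F6 ≃ₐ[k] F6} (D : QG k F N F6 G ι) :
    Algebra.IsAlgebraic (IntermediateField.adjoin k {D.s, D.t}) N := by
  let _ : MulSemiringAction G N :=
    { smul := fun g z => D.ρ g z
      one_smul := fun z => by
        change D.ρ 1 z = z
        rw [map_one]
        rfl
      mul_smul := fun g h z => by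
        change D.ρ (g * h) z = D.ρ g (D.ρ h z)
        rw [map_mul]
        rfl
      smul_zero := fun g => map_zero (D.ρ g)
      smul_add := fun g x y => map_add (D.ρ g) x y
      smul_one := fun g => map_one (D.ρ g)
      smul_mul := fun g x y => map_mul (D.ρ g) x y }
  have h1 : Algebra.IsInvariant (IntermediateField.adjoin k {D.s, D.t}) N G := ⟨fun b hb => by
    have h2 := (D.base b).mp hb
    exact ⟨⟨b, h2⟩, rfl⟩⟩
  have h3 : Algebra.IsIntegral (IntermediateField.adjoin k {D.s, D.t}) N := Algebra.IsInvariant.isIntegral _ N G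
  exact h3.isAlgebraic

lemma QG.gj_spec {F N F6 G : Type u} [Field F] [Algebra k F] [Field N] [Algebra k N] [Field F6] [Algebra k F6]
    [Group G] [Fintype G] {ι : F6 ≃ₐ[k] F6} (D : QG k F N F6 G ι) {j : Fin 4} (hc : D.Cj j) :
    (D.act (D.gj j) 0 = 0 ∧ D.act (D.gj j) 1 = j) ∨ (D.act (D.gj j) 0 = j ∧ D.act (D.gj j) 1 = 0) := by
  rw [QG.gj, dif_pos hc]
  exact hc.2.choose_spec

section out

variable {F : Type u} [Field F] [Algebra k F] {D : Net k F} {N F6 G : Type u} [Field N]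
    [CharZero N] [Algebra k N] [Field F6] [Algebra k F6] [Group G] [Fintype G] (O : FOut2 D N F6 G)

lemma ehe_ne {i j : Fin 4} (h : i ≠ j) : O.P.e i j 2 ≠ 0 := by
  intro h0
  apply O.P.e_ne h
  funext a
  rw [O.ehs i j h a, h0, zero_mul]
  rfl

lemma eh_symm {i j : Fin 4} (h : i ≠ j) (a : Fin 3) : O.eh i j a = O.eh j i a := by
  have h1 := O.ehs i j h a
  have h2 := O.ehs j i h.symm a
  rw [O.P.e_symm i j] at h1
  rw [h1] at h2
  exact mul_left_cancel₀ (ehe_ne O h.symm) h2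

lemma vh_symm {i j : Fin 4} (h : i ≠ j) (a : Fin 3) : O.vh i j a = O.vh j i a := by
  have h1 := O.hV i j h
  have h2 := (O.hV j i h.symm).symm
  have h3 : O.eh i j = O.eh j i := funext (eh_symm O h)
  rw [h3] at h1
  exact congrFun (h1.uniq h h2) a

/-- The embeddings of the field of the curve. -/
noncomputable def ph (j : ULift.{u} {j : Fin 4 // 0 ≠ j}) : O.C.Kt →ₐ[k] N :=
  ((O.q.ρ (O.q.gj j.down.1) : N ≃ₐ[k] N) : N →ₐ[k] N).comp (O.q.e6.comp O.C.Kt.val)

/-- The embeddings of the field of the pair. -/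
noncomputable def ps (j : Fin 4) : F6 →ₐ[k] N :=
  ((O.q.ρ (O.q.gj j) : N ≃ₐ[k] N) : N →ₐ[k] N).comp O.q.e6

lemma ps_e (hC : ∀ j : Fin 4, j ≠ 0 → O.q.Cj j) {j : Fin 4} (hj : 0 ≠ j) {z : F6} {a : Fin 3}
    (hz : O.q.e6 z = O.eh 0 1 a) : ps O j z = O.eh 0 j a := by
  change O.q.ρ (O.q.gj j) (O.q.e6 z) = _
  rw [hz, O.heh _ _ _ _ (by decide)]
  rcases QG.gj_spec O.q (hC j hj.symm) with ⟨h0, h1⟩ | ⟨h0, h1⟩
  · rw [h0, h1]
  · rw [h0, h1, eh_symm O hj.symm]

lemma ps_v (hC : ∀ j : Fin 4, j ≠ 0 → O.q.Cj j) {j : Fin 4} (hj : 0 ≠ j) {z : F6} {a : Fin 3}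
    (hz : O.q.e6 z = O.vh 0 1 a) : ps O j z = O.vh 0 j a := by
  change O.q.ρ (O.q.gj j) (O.q.e6 z) = _
  rw [hz, O.hvh _ _ _ _ (by decide)]
  rcases QG.gj_spec O.q (hC j hj.symm) with ⟨h0, h1⟩ | ⟨h0, h1⟩
  · rw [h0, h1]
  · rw [h0, h1, vh_symm O hj.symm]

lemma sum_J (f : Fin 4 → k) : ∑ j : ULift.{u} {j : Fin 4 // 0 ≠ j}, f j.down.1 =
    ∑ j : Fin 4, if 0 ≠ j then f j else 0 := by
  rw [← Equiv.sum_comp Equiv.ulift.symm, ← Finset.sum_filter]
  exact (Finset.sum_subtype (Finset.univ.filter fun j : Fin 4 => 0 ≠ j) (by simp) f).symm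

open Classical in
/-- The sum over the three lines through a point of the plane is constant. -/
theorem out_H (hT1 : StmtHf.{u}) (hC : ∀ j : Fin 4, j ≠ 0 → O.q.Cj j) (hKt : IsFunctionField k O.C.Kt)
    (μ : Place k O.C.Kt → k) (hμ : Harm hKt μ) : ∃ C : k, ∀ w : RPl k N, ∑ j, (if O.q.Cj j then
      μ (((w.comap ((O.q.ρ (O.q.gj j) : N ≃ₐ[k] N) : N →ₐ[k] N)).comap O.q.e6).pl hKt O.C.Kt.val) else 0) = C := by
  have hzw : AlgebraicIndependent k ![O.q.e 0 D.z, O.q.e 0 D.w] := by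
    have h1 := (Net.zw D).map' (f := O.q.e 0) (O.q.e 0).toRingHom.injective
    convert h1 using 1
    funext i
    fin_cases i <;> rfl
  have halg := alg_of_ind O.q.ind (QG.alg O.q) hzw
  have : Nonempty (ULift.{u} {j : Fin 4 // 0 ≠ j}) := ⟨⟨⟨1, by decide⟩⟩⟩
  obtain ⟨C, hCc⟩ := lemT hKt (hT1 k O.C.Kt hKt μ hμ) (O.q.e 0 D.z) (O.q.e 0 D.w) hzw halg (ph O) (by
    intro L _ _ σ τ hz hw
    have hL : CharZero L := charZero_of_injective_algebraMap (algebraMap k L).injective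
    obtain ⟨π, hπ⟩ := O.P.perm (fun j => O.eh 0 j) (fun j => O.vh 0 j) (fun j hj => O.eh2 0 j hj)
      (fun j hj a => O.ehs 0 j hj a) (fun j hj => O.hV 0 j hj) σ τ (by
        intro a
        rw [O.hPp]
        fin_cases a
        · exact hz
        · exact hw
        · change σ 1 = τ 1
          rw [map_one, map_one])
    refine ⟨Equiv.ulift.trans (π.trans Equiv.ulift.symm), fun j x => ?_⟩
    obtain ⟨⟨j, hj⟩⟩ := j
    have h1 := (hπ ⟨j, hj⟩).1
    have h2 := (hπ ⟨j, hj⟩).2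
    change (σ.comp (ps O j)) (x : F6) = (τ.comp (ps O (π ⟨j, hj⟩).1)) (x : F6)
    refine eq_on_adjoin (σ.comp (ps O j)) (τ.comp (ps O (π ⟨j, hj⟩).1)) ((O.C.K : Set F6) ∪ {O.C.T}) ?_ (x : F6) x.2
    rintro z (hz | hz)
    · have hz' : z ∈ IntermediateField.adjoin k {O.x, O.y} := by
        rw [← O.hK]
        exact hz
      refine eq_on_adjoin _ _ _ ?_ z hz'
      rintro z (rfl | rfl)
      · change σ (ps O j O.x) = τ (ps O (π ⟨j, hj⟩).1 O.x)
        rw [ps_e O hC hj O.h6x, ps_e O hC (π ⟨j, hj⟩).2 O.h6x]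
        exact h1 0
      · change σ (ps O j O.y) = τ (ps O (π ⟨j, hj⟩).1 O.y)
        rw [ps_e O hC hj O.h6y, ps_e O hC (π ⟨j, hj⟩).2 O.h6y]
        exact h1 1
    · have hz' : z = O.C.T := hz
      rw [hz', O.hT]
      change σ (ps O j (O.v O.i)) = τ (ps O (π ⟨j, hj⟩).1 (O.v O.i))
      rw [ps_v O hC hj (O.h6v _), ps_v O hC (π ⟨j, hj⟩).2 (O.h6v _)]
      exact h2 O.i)
  refine ⟨C, fun w => ?_⟩
  rw [← hCc w]
  have h5 := sum_J (fun j => μ (((w.comap ((O.q.ρ (O.q.gj j) : N ≃ₐ[k] N) : N →ₐ[k] N)).comap O.q.e6).pl hKt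
    O.C.Kt.val))
  refine Eq.trans ?_ h5.symm
  refine Finset.sum_congr rfl fun j _ => ?_
  by_cases hj : 0 = j
  · subst hj
    rw [if_neg (fun h : O.q.Cj 0 => h.1 rfl), if_neg (fun h => h rfl)]
  · rw [if_pos (hC j (fun h => hj h.symm)), if_pos hj]

/-- The involution of the curve. -/
lemma exists_tau_kt : ∃ τ : O.C.Kt →ₐ[k] O.C.Kt, ∀ z, O.C.ι (O.C.Kt.val z) = O.C.Kt.val (τ z) := by
  have h1 : ∀ z ∈ O.C.Kt, O.C.ι z ∈ O.C.Kt := by
    intro z hz
    induction hz using IntermediateField.adjoin_induction with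
    | mem x hx =>
      rcases hx with hx | hx
      · have h2 := O.C.ιK ⟨x, hx⟩
        change O.C.ι x = x at h2
        rw [h2]
        exact IntermediateField.subset_adjoin _ _ (Or.inl hx)
      · have hx' : x = O.C.T := hx
        rw [hx', O.C.ιT]
        exact neg_mem (IntermediateField.subset_adjoin _ _ (Or.inr rfl))
    | algebraMap x =>
      rw [AlgEquiv.commutes]
      exact O.C.Kt.algebraMap_mem x
    | add x y _ _ hx hy => rw [map_add]; exact add_mem hx hy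
    | inv x _ hx => rw [map_inv₀]; exact inv_mem hx
    | mul x y _ _ hx hy => rw [map_mul]; exact mul_mem hx hy
  exact ⟨((O.C.ι : F6 →ₐ[k] F6).comp O.C.Kt.val).codRestrict O.C.Kt.toSubalgebra fun z => h1 z z.2, fun z => rfl⟩

/-- THE MAIN THEOREM for one output of block F. -/
theorem vp_out (he : StmtE.{u}) (hD : StmtD.{u}) (hT1 : StmtHf.{u}) (hC : ∀ j : Fin 4, j ≠ 0 → O.q.Cj j) :
    VP k F 3 := by
  obtain ⟨hK, g, hg, E, h4, h6, hE, hj⟩ := exists_E hD O
  have hKt := a0 k F6 O.C hK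
  obtain ⟨τ, hτ⟩ := exists_tau_kt O
  exact stepB_j O.q hKt O.C.Kt.val τ hτ (out_H O hT1 hC hKt)
    (fun M ξ hξ n hn => b_j he O.C hK hKt g hg hj E h4 h6 3 hE M ξ hξ n hn) (rat_adjoin O.q.s O.q.t O.q.ind)

end out

end Pool.Agent.Helper83.KN
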