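import Mathlib
import Pool.Agent.Helper83.KN.B
import Pool.Agent.Helper98.NT.E

/-!
# NT: block B
-/

namespace Pool.Agent.NT28

universe u

theorem b : StmtB.{u} := Pool.Agent.Helper83.KN.b_of e

end Pool.Agent.NT28
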