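import Mathlib
import Pool.Agent.Helper9.NS
import Pool.Agent.Helper15.KP.HFb
import Pool.Agent.Helper15.GT.Hom
import Pool.Agent.Helper21.TZ.Defs
import Pool.Agent.Helper17.FF.Genus

/-!
# KN: harmonic functions on the places of a function field of one variable come from a projective model
-/

set_option linter.unusedSectionVars false

namespace Pool.Agent.Helper83.KN

open VC VF Function Polynomial Pool.Agent.Helper21.TO Pool.Agent.Helper21.TB Pool.Agent.Helper15.GT
open Pool.Agent.Helper15.KP
open Pool.Agent.Helper51.VN (Harm)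

universe u

variable {k : Type u} [Field k] [IsAlgClosed k] [CharZero k] {M : Type u} [Field M] [Algebra k M]

/-- The elements of a finite set are sections of a divisor of large degree. -/
lemma exists_D0 (hM : IsFunctionField k M) (S : Finset M) (n : ℤ) (hne : Nonempty (Place k M)) :
    ∃ D : Place k M →₀ ℤ, n ≤ FF.deg D ∧ (∀ P, 0 ≤ D P) ∧ ∀ f ∈ S, f ∈ riemannRochSpace k M D := by
  classical
  induction S using Finset.induction_on with
  | empty =>
    obtain ⟨P₀⟩ := hne
    refine ⟨Finsupp.single P₀ (max n 0), ?_, fun P => ?_, fun f hf => absurd hf (Finset.notMem_empty f)⟩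
    · rw [FF.deg_single]
      exact le_max_left _ _
    · rw [Finsupp.single_apply]
      split_ifs
      · exact le_max_right _ _
      · exact le_rfl
  | insert a S ha ih =>
    obtain ⟨D, hD, h0, hS⟩ := ih
    have hA : ∀ P, 0 ≤ ((- FF.dv hM a) ⊔ 0) P := fun P => by
      rw [Finsupp.sup_apply, Finsupp.zero_apply]
      exact le_max_right _ _
    refine ⟨D + ((- FF.dv hM a) ⊔ 0), ?_, fun P => ?_, fun f hf => ?_⟩
    · rw [map_add]
      have h1 : 0 ≤ FF.deg ((- FF.dv hM a) ⊔ 0) := FF.deg_nonneg hA
      omega
    · rw [Finsupp.add_apply]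
      exact add_nonneg (h0 P) (hA P)
    · rw [Finset.mem_insert] at hf
      by_cases hf0 : f = 0
      · rw [hf0]
        exact Submodule.zero_mem _
      · rw [FF.mem_rr hM _ hf0]
        intro P
        rw [Finsupp.add_apply]
        rcases hf with rfl | hf
        · have h1 : (- FF.dv hM f) P ≤ ((- FF.dv hM f) ⊔ 0) P := by
            rw [Finsupp.sup_apply]
            exact le_max_left _ _
          rw [Finsupp.neg_apply, FF.dv_apply] at h1
          have := h0 P
          omega
        · have h1 := (FF.mem_rr hM D hf0).mp (hS f hf) P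
          have := hA P
          omega

/-- The sections of a divisor of large degree separate the places. -/
theorem exists_D (hM : IsFunctionField k M) (S : Finset M) : ∃ D : Place k M →₀ ℤ,
    (∀ f ∈ S, f ∈ riemannRochSpace k M D) ∧ ∀ P Q : Place k M, P ≠ Q →
      ∃ f : M, f ≠ 0 ∧ f ∈ riemannRochSpace k M D ∧ 0 < ord P.ring f + D P ∧ ord Q.ring f + D Q = 0 := by
  classical
  by_cases hne : Nonempty (Place k M)
  swap
  · refine ⟨0, fun f _ => ?_, fun P => (hne ⟨P⟩).elim⟩
    by_cases hf0 : f = 0
    · rw [hf0]
      exact Submodule.zero_mem _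
    · rw [FF.mem_rr hM _ hf0]
      exact fun P => (hne ⟨P⟩).elim
  obtain ⟨g, hg⟩ := FF.exists_genus hM
  obtain ⟨c, hc⟩ := FF.ell_eq_of_large hM hg
  obtain ⟨D, hD, -, hS⟩ := exists_D0 hM S (c + 2) hne
  refine ⟨D, hS, fun P Q hPQ => ?_⟩
  set E := D - Finsupp.single P 1 with hE
  set E' := E - Finsupp.single Q 1 with hE'
  have d1 : FF.deg E = FF.deg D - 1 := by rw [hE, map_sub, FF.deg_single]
  have d2 : FF.deg E' = FF.deg D - 2 := by rw [hE', map_sub, FF.deg_single, d1]; ring
  have l1 := hc E (by omega)
  have l2 := hc E' (by omega)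
  have hle : ∀ R, E' R ≤ E R := by
    intro R
    rw [hE', Finsupp.sub_apply, Finsupp.single_apply]
    split_ifs <;> omega
  obtain ⟨f, hf, hf'⟩ : ∃ f ∈ riemannRochSpace k M E, f ∉ riemannRochSpace k M E' := by
    by_contra hcon
    push Not at hcon
    have h1 : riemannRochSpace k M E = riemannRochSpace k M E' :=
      le_antisymm (fun f hf => hcon f hf) (FF.rr_mono hM hle)
    have h2 : FF.ell E = FF.ell E' := by
      unfold FF.ell
      rw [h1]
    omega
  have hf0 : f ≠ 0 := by
    rintro rfl
    exact hf' (Submodule.zero_mem _)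
  rw [FF.mem_rr hM _ hf0] at hf hf'
  push Not at hf'
  obtain ⟨R, hR⟩ := hf'
  have hRQ : R = Q := by
    by_contra hne'
    have h1 := hf R
    rw [hE', Finsupp.sub_apply, Finsupp.single_apply, if_neg (fun h => hne' h.symm)] at hR
    omega
  subst hRQ
  have hER : E R = D R := by
    rw [hE, Finsupp.sub_apply, Finsupp.single_apply, if_neg hPQ, sub_zero]
  have hEP : E P = D P - 1 := by
    rw [hE, Finsupp.sub_apply, Finsupp.single_eq_same]
  refine ⟨f, hf0, ?_, ?_, ?_⟩
  · rw [FF.mem_rr hM _ hf0]
    intro X
    have h1 := hf X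
    have h2 : E X ≤ D X := by
      rw [hE, Finsupp.sub_apply, Finsupp.single_apply]
      split_ifs <;> omega
    omega
  · have h1 := hf P
    omega
  · have h1 := hf R
    rw [hE', Finsupp.sub_apply, Finsupp.single_eq_same, hER] at hR
    rw [hER] at h1
    omega

/-- The function field is generated by a finite set. -/
lemma exists_gens (hM : IsFunctionField k M) : ∃ S : Finset M, IntermediateField.adjoin k (S : Set M) = ⊤ := by
  classical
  obtain ⟨t, ht, hfin⟩ := hM
  obtain ⟨B, hB⟩ := hfin.fg_top
  refine ⟨insert t B, ?_⟩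
  rw [eq_top_iff]
  intro z _
  have hz : z ∈ Submodule.span (IntermediateField.adjoin k {t}) (B : Set M) := by
    rw [hB]
    exact Submodule.mem_top
  have hle : IntermediateField.adjoin k {t} ≤ IntermediateField.adjoin k ((insert t B : Finset M) : Set M) :=
    IntermediateField.adjoin.mono _ _ _ (by simp)
  induction hz using Submodule.span_induction with
  | mem x hx => exact IntermediateField.subset_adjoin _ _ (by simp [Finset.mem_coe.mp hx])
  | zero => exact zero_mem _
  | add x y _ _ hx hy => exact add_mem (hx trivial) (hy trivial)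
  | smul a x _ hx =>
    rw [Algebra.smul_def]
    exact mul_mem (hle a.2) (hx trivial)

end Pool.Agent.Helper83.KN
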