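import Mathlib
import Pool.Agent.Helper83.KN.T1

/-!
# KN: harmonic functions on the places of a function field of one variable come from a projective model, II
-/

set_option linter.unusedSectionVars false

namespace Pool.Agent.Helper83.KN

open VC VF Function Polynomial Pool.Agent.Helper21.TO Pool.Agent.Helper21.TB Pool.Agent.Helper15.GT
open Pool.Agent.Helper15.KP
open Pool.Agent.Helper51.VN (Harm)

universe u

variable {k : Type u} [Field k] [IsAlgClosed k] [CharZero k] {M : Type u} [Field M] [Algebra k M]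

/-- Linear combinations of the coordinates. -/
def lcb {m : ℕ} {R : Type*} [CommRing R] [Algebra k R] (r : Fin m → k) (ξ : Fin m → R) : R :=
  ∑ i, algebraMap k R (r i) * ξ i

/-- Coordinates which span the sections of a divisor. -/
lemma exists_xi (hM : IsFunctionField k M) (D : Place k M →₀ ℤ) : ∃ (m : ℕ) (ξ : Fin m → M),
    (∀ i, ξ i ∈ riemannRochSpace k M D) ∧ ∀ f ∈ riemannRochSpace k M D, ∃ r : Fin m → k, f = lcb r ξ := by
  have := FF.finite_rr hM D
  let b := Module.finBasis k (riemannRochSpace k M D)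
  refine ⟨_, fun i => (b i : M), fun i => (b i).2, fun f hf => ⟨b.repr ⟨f, hf⟩, ?_⟩⟩
  have h1 := congrArg Subtype.val (b.sum_repr ⟨f, hf⟩)
  refine Eq.trans h1.symm ?_
  unfold lcb
  rw [AddSubmonoidClass.coe_finsetSum]
  refine Finset.sum_congr rfl fun i _ => ?_
  rw [SetLike.val_smul, Algebra.smul_def]

lemma rs_lcb {m : ℕ} {w : RPl k M} {ξ : Fin m → M} {a : Fin m → k} {r : M} (h : ∀ i, Rs w (r * ξ i) (a i))
    (c : Fin m → k) : Rs w (r * lcb c ξ) (lcb c a) := by
  unfold lcb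
  rw [Finset.mul_sum]
  refine Rs.sum _ fun i _ => ?_
  have h1 := (rs_const (w := w) (c i)).mul (h i)
  have e : r * (algebraMap k M (c i) * ξ i) = algebraMap k M (c i) * (r * ξ i) := by ring
  rw [e]
  exact h1

/-- The center determines the place. -/
theorem inj_evP (hM : IsFunctionField k M) {D : Place k M →₀ ℤ}
    (hsep : ∀ P Q : Place k M, P ≠ Q →
      ∃ f : M, f ≠ 0 ∧ f ∈ riemannRochSpace k M D ∧ 0 < ord P.ring f + D P ∧ ord Q.ring f + D Q = 0)
    {m : ℕ} {ξ : Fin m → M} (hξ : ξ ≠ 0) (hL : ∀ i, ξ i ∈ riemannRochSpace k M D)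
    (hsp : ∀ f ∈ riemannRochSpace k M D, ∃ r : Fin m → k, f = lcb r ξ) {w w' : RPl k M}
    (h : evP ξ hξ w = evP ξ hξ w') : w.pl hM (AlgHom.id k M) = w'.pl hM (AlgHom.id k M) := by
  by_contra hne
  obtain ⟨b, hb, hs, ⟨-, r, hr⟩, he⟩ := exists_evP ξ hξ w
  obtain ⟨b', hb', hs', ⟨-, r', hr'⟩, he'⟩ := exists_evP ξ hξ w'
  rw [he, he', ppt_eq_iff] at h
  obtain ⟨c, hc⟩ := h
  set P := w.pl hM (AlgHom.id k M) with hP
  set Q := w'.pl hM (AlgHom.id k M) with hQ
  have hPr : P.ring = w.ring := rfl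
  have hQr : Q.ring = w'.ring := rfl
  -- the order of the scaling factor
  have key : ∀ (w : RPl k M) (P Q : Place k M), P.ring = w.ring → P ≠ Q → ∀ (b : Fin m → k), b ≠ 0 → ∀ r : M,
      (∀ i, Rs w (r * ξ i) (b i)) → r ≠ 0 ∧ ord P.ring r = D P := by
    intro w P Q hPr hPQ b hb r hr
    have hr0 : r ≠ 0 := Vl.r_ne hb hr
    refine ⟨hr0, le_antisymm ?_ ?_⟩
    · obtain ⟨i, hi⟩ := Function.ne_iff.mp hb
      have hi' : b i ≠ 0 := hi
      have h1 := (hr i).inv_mem hi'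
      have hx0 : ξ i ≠ 0 := fun h0 => h1.1 (by rw [h0, mul_zero])
      have h2 := (FF.mem_rr hM D hx0).mp (hL i) P
      have h3 : 0 ≤ ord P.ring (r * ξ i)⁻¹ := by
        rw [FF.ord_nonneg_iff hM P (inv_ne_zero h1.1), hPr]
        exact h1.2
      rw [FF.ord_inv hM P h1.1, FF.ord_mul hM P hr0 hx0] at h3
      omega
    · obtain ⟨f, hf0, hf, -, h2⟩ := hsep Q P (Ne.symm hPQ)
      obtain ⟨s, hs⟩ := hsp f hf
      have h3 := (rs_lcb hr s).mem
      rw [← hs, ← hPr, ← FF.ord_nonneg_iff hM P (mul_ne_zero hr0 hf0), FF.ord_mul hM P hr0 hf0] at h3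
      omega
  obtain ⟨hr0, hrP⟩ := key w P Q hPr hne b hb r hr
  obtain ⟨hr0', hrQ⟩ := key w' Q P hQr (Ne.symm hne) b' hb' r' hr'
  obtain ⟨f, hf0, hf, h1, h2⟩ := hsep P Q hne
  obtain ⟨s, hs⟩ := hsp f hf
  -- at the first place
  have h3 : lcb s b = 0 := by
    have h4 := rs_lcb hr s
    rw [← hs] at h4
    have h5 : r * f ∈ w.ring.nonunits := by
      rw [← hPr, ← FF.ord_pos_iff hM P (mul_ne_zero hr0 hf0), FF.ord_mul hM P hr0 hf0]
      omega
    exact h4.unique (rs_zero_iff.mpr h5)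
  have h6 : lcb s b' ≠ 0 := by
    intro h0
    have h4 := rs_lcb hr' s
    rw [← hs, h0, rs_zero_iff, ← hQr, ← FF.ord_pos_iff hM Q (mul_ne_zero hr0' hf0), FF.ord_mul hM Q hr0' hf0] at h4
    omega
  have h7 : lcb s b = c * lcb s b' := by
    unfold lcb
    rw [Finset.mul_sum]
    refine Finset.sum_congr rfl fun i _ => ?_
    rw [← hc i]
    ring
  rw [h3] at h7
  have hc0 : c = 0 := (mul_eq_zero.mp h7.symm).resolve_right h6
  apply hb
  funext i
  rw [← hc i, hc0, zero_mul]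
  rfl

end Pool.Agent.Helper83.KN
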