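import Mathlib
import Pool.Agent.Helper83.KN.T1b
import Pool.Agent.Helper83.KN.MainN
import Pool.Agent.Helper70.NT.Emb

/-!
# KN: harmonic functions on the places of a function field of one variable come from a projective model, III
-/

set_option linter.unusedSectionVars false

namespace Pool.Agent.Helper83.KN

open VC VF Function Polynomial Pool.Agent.Helper21.TO Pool.Agent.Helper21.TB Pool.Agent.Helper15.GT
open Pool.Agent.Helper15.KP
open Pool.Agent.Helper51.VN (Harm)

universe u

variable {k : Type u} [Field k] [IsAlgClosed k] [CharZero k] {M : Type u} [Field M] [Algebra k M]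

lemma isRes_of_rs {K : Type u} [Field K] [Algebra k K] (hK : IsFunctionField k K) (v : Place k K) (ι : M →ₐ[k] K)
    {z : M} {c : k} (h : Rs ((Pool.Agent.Helper21.TZ.rpl hK v).comap ι) z c) : IsRes v (ι z) c := by
  rw [rs_comap] at h
  exact h

lemma pl_rpl {K : Type u} [Field K] [Algebra k K] (hM : IsFunctionField k M) (hK : IsFunctionField k K)
    (v : Place k K) (ι : M →ₐ[k] K) :
    ((Pool.Agent.Helper21.TZ.rpl hK v).comap ι).pl hM (AlgHom.id k M) = Place.comap hM hK ι v := by
  ext z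
  rfl

lemma fun_eq {K : Type u} [Field K] [Algebra k K] (ι : M →ₐ[k] K) {m : ℕ} {ξ : Fin m → M} {a : Fin m → K} {j : Fin m}
    (hξj : ξ j ≠ 0) (hj : a j ≠ 0) (hι : ∀ i, ι (ξ i / ξ j) = a i / a j) (r : M) (i : Fin m) :
    ι (r * ξ i) = ι r * ι (ξ j) / a j * a i := by
  have hιj : ι (ξ j) ≠ 0 := (_root_.map_ne_zero _).mpr hξj
  have h4 := hι i
  rw [map_div₀, div_eq_div_iff hιj hj] at h4
  have h5 : ι (ξ i) = a i * ι (ξ j) / a j := (eq_div_iff hj).mpr h4
  rw [map_mul, h5]
  ring

lemma lcb_mem_span {m : ℕ} (r : Fin m → k) (ξ : Fin m → M) : lcb r ξ ∈ Submodule.span k (Set.range ξ) := by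
  unfold lcb
  refine Submodule.sum_mem _ fun i _ => ?_
  rw [← Algebra.smul_def]
  exact Submodule.smul_mem _ _ (Submodule.subset_span ⟨i, rfl⟩)

lemma exists_alg_const {K : Type*} [Field K] [Algebra k K] {x : K} (hx : IsAlgebraic k x) :
    ∃ b : k, algebraMap k K b = x :=
  minpoly.mem_range_of_degree_eq_one k x
    (IsAlgClosed.degree_eq_one_of_irreducible k (minpoly.irreducible hx.isIntegral))

theorem hf_of_harm (hM : IsFunctionField k M) {ν : Place k M → k} (hν : Harm hM ν) :
    HF k M (fun w => ν (w.pl hM (AlgHom.id k M))) := by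
  classical
  obtain ⟨S, hS⟩ := exists_gens hM
  obtain ⟨D, hD, hsep⟩ := exists_D hM (insert 1 S)
  obtain ⟨m, ξ, hL, hsp⟩ := exists_xi hM D
  have h1 : ∃ r : Fin m → k, (1 : M) = lcb r ξ := hsp 1 (hD 1 (Finset.mem_insert_self _ _))
  have hξ : ξ ≠ 0 := by
    intro h0
    obtain ⟨r, hr⟩ := h1
    rw [h0] at hr
    unfold lcb at hr
    simp at hr
  have hgen : ∃ S : Set M, IntermediateField.adjoin k S = ⊤ ∧ (1 : M) ∈ Submodule.span k (Set.range ξ) ∧
      ∀ f ∈ S, f ∈ Submodule.span k (Set.range ξ) := by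
    refine ⟨S, hS, ?_, fun f hf => ?_⟩
    · obtain ⟨r, hr⟩ := h1
      rw [hr]
      exact lcb_mem_span r ξ
    · obtain ⟨r, hr⟩ := hsp f (hD f (Finset.mem_insert_of_mem hf))
      rw [hr]
      exact lcb_mem_span r ξ
  let φ : (proj k (van k ξ)).Pt → k := fun p =>
    if h : ∃ w : RPl k M, evP ξ hξ w = p then ν (h.choose.pl hM (AlgHom.id k M)) else 0
  have hφ : ∀ w, φ (evP ξ hξ w) = ν (w.pl hM (AlgHom.id k M)) := by
    intro w
    have h : ∃ w' : RPl k M, evP ξ hξ w' = evP ξ hξ w := ⟨w, rfl⟩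
    change (if h : ∃ w' : RPl k M, evP ξ hξ w' = evP ξ hξ w then ν (h.choose.pl hM (AlgHom.id k M)) else 0) = _
    rw [dif_pos h, inj_evP hM hsep hξ hL hsp h.choose_spec]
  refine ⟨m, ξ, hξ, φ, ?_, fun w => (hφ w).symm⟩
  apply kills_of_gen
  intro K _ _ hK c f hf
  obtain ⟨a, ha, hs, rfl⟩ := exists_ppt c
  obtain ⟨j, hj⟩ := Function.ne_iff.mp ha
  have hj' : a j ≠ 0 := hj
  by_cases hnc : ∃ i, Transcendental k (a i / a j)
  · obtain ⟨hξj, ι, hι⟩ := Pool.Agent.Helper70.NT.exists_emb hM ξ hgen a hs j hj' hnc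
    have hev : ∀ v : Place k K, (proj k (van k ξ)).eval hK (ppt a ha hs) v =
        evP ξ hξ ((Pool.Agent.Helper21.TZ.rpl hK v).comap ι) := by
      intro v
      obtain ⟨b, hb, hs', ⟨-, r, hr⟩, he⟩ := exists_evP ξ hξ ((Pool.Agent.Helper21.TZ.rpl hK v).comap ι)
      rw [he]
      refine peval_eq' hK v ha hs hb hs' (ι r * ι (ξ j) / a j) fun i => ?_
      have h2 := isRes_of_rs hK v ι (hr i)
      rw [fun_eq ι hξj hj' hι r i] at h2
      exact h2
    have hsum := pull_harm hK ι hν f hf
    refine Eq.trans ?_ hsum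
    refine Finset.sum_congr rfl fun v _ => ?_
    rw [hev v, hφ, pl_rpl hM hK v ι]
  · push Not at hnc
    choose b hb using fun i => exists_alg_const (not_not.mp (hnc i))
    have hbj : b j = 1 := by
      apply (algebraMap k K).injective
      rw [hb j, div_self hj', map_one]
    have hb0 : b ≠ 0 := by
      intro h0
      rw [h0] at hbj
      exact zero_ne_one hbj
    have hsb : Sat (van k ξ) b := by
      intro P hP n hn
      apply (algebraMap k K).injective
      rw [map_zero, ← MvPolynomial.aeval_algebraMap_apply]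
      have h2 : (fun i => algebraMap k K (b i)) = fun i => (a j)⁻¹ * a i := by
        funext i
        rw [hb i]
        field_simp
      have h3 : (algebraMap k K) ∘ b = fun i => (a j)⁻¹ * a i := h2
      rw [h3]
      exact hs.smul _ P hP n hn
    have hev : ∀ v : Place k K, (proj k (van k ξ)).eval hK (ppt a ha hs) v = ppt b hb0 hsb := by
      intro v
      refine peval_eq' hK v ha hs hb0 hsb (a j)⁻¹ fun i => ?_
      have h2 : (a j)⁻¹ * a i = algebraMap k K (b i) := by
        rw [hb i]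
        field_simp
      rw [h2]
      exact isRes_const _
    refine Eq.trans (Finset.sum_congr rfl fun v _ => ?_) (harm_const hK (φ (ppt b hb0 hsb)) f hf)
    rw [hev v]

theorem stmtHf : StmtHf.{u} := by
  intro k M _ _ _ _ _ hM ν hν
  exact hf_of_harm hM hν

end Pool.Agent.Helper83.KN
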