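import Mathlib
import Pool.Agent.Helper83.KN.T1c
import Pool.Agent.Helper28.NT.F
import Pool.Agent.Helper98.NT.E
import Pool.Agent.Helper40.NT.D

/-!
# NT: the main theorem
-/

set_option linter.unusedSectionVars false

namespace Pool.Agent.NT28

universe u

theorem n : StmtN.{u} := by
  intro k F _ _ _ _ _ D
  obtain ⟨N, F6, G, _, _, _, _, _, _, _, ⟨O⟩⟩ := f2 k F D
  exact Pool.Agent.Helper83.KN.vp_out O e d Pool.Agent.Helper83.KN.stmtHf fun j hj => ⟨hj, O.hCj j hj⟩

end Pool.Agent.NT28
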